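import Pool.Agent.Helper84.TM_FI

/-! Module KA of MP_fc8395_an: lower bounds for `κ`. -/

set_option autoImplicit false

open scoped ContDiff Topology
open Filter Set

namespace TM

namespace KA

lemma D_sq_gt {e : ℝ} {p : Pt} (hp : p ∈ Surf e) (hy : |p.2.1| < 1)
    (hz : |p.2.2| < V e) : e ^ 2 * p.2.1 ^ 2 < D p ^ 2 := by
  have h1 := D_sq hp
  have h2 : p.2.1 ^ 2 < 1 := by
    rw [← sq_abs]
    nlinarith [abs_nonneg p.2.1]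
  have h3 : p.2.2 ^ 2 < 1 + e ^ 2 := by
    rw [← sq_abs, ← V_sq]
    nlinarith [abs_nonneg p.2.2]
  nlinarith [mul_pos (sub_pos.2 h2) (sub_pos.2 h3)]

lemma D_sq_ge {e : ℝ} {p : Pt} (hp : p ∈ Surf e) (hy : |p.2.1| < 1)
    (hz : |p.2.2| ≤ 1) : e ^ 2 ≤ D p ^ 2 := by
  have h1 := D_sq hp
  have h2 : p.2.1 ^ 2 < 1 := by
    rw [← sq_abs]
    nlinarith [abs_nonneg p.2.1]
  have h3 : p.2.2 ^ 2 ≤ 1 := by
    rw [← sq_abs]
    nlinarith [abs_nonneg p.2.2]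
  nlinarith [mul_nonneg (sub_nonneg.2 h2.le) (sub_nonneg.2 h3)]

end KA

open KA

theorem D_ne_of_lt {e : ℝ} (he : 0 < e) {p : Pt} (hp : p ∈ Surf e) (hy : |p.2.1| < 1)
    (hz : |p.2.2| < V e) : D p ≠ 0 := by
  intro h
  have h1 := D_sq_gt hp hy hz
  rw [h] at h1
  nlinarith [mul_nonneg (sq_nonneg e) (sq_nonneg p.2.1)]

theorem kap_pos {e : ℝ} (he : 0 < e) {p : Pt} (hp : p ∈ Surf e) (hy : |p.2.1| < 1)
    (hz : |p.2.2| ≤ 1) {j : ℕ} (hj : 1 ≤ j) (ht : |(U^[j] p).2.2| < V e) : 0 < kap e p j := by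
  have h1 := D_sq_ge hp hy hz
  have h2 : e ^ 2 * p.2.1 ^ 2 < D (U^[j] p) ^ 2 := by
    have := D_sq_gt (U_iter_mem hp j) (by rw [U_iter_y]; exact hy) ht
    rwa [U_iter_y] at this
  have h3 := Ch_abs_le hy.le j
  have hj' : (1 : ℝ) ≤ j := by exact_mod_cast hj
  -- the product is large
  have h4 : e ^ 2 * |p.2.1| < |D p * D (U^[j] p)| := by
    apply lt_of_pow_lt_pow_left₀ 2 (abs_nonneg _)
    rw [mul_pow, sq_abs, sq_abs, mul_pow]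
    have he2 : 0 < e ^ 2 := by positivity
    nlinarith [mul_nonneg (sq_nonneg e) (sq_nonneg p.2.1), mul_le_mul_of_nonneg_right h1
      (sq_nonneg (D (U^[j] p)))]
  have h5 : 0 < |D p * D (U^[j] p)| := lt_of_le_of_lt (by positivity) h4
  have h6 : |e ^ 2 * p.2.1 * Ch (j - 1) p.2.1 / (D p * D (U^[j] p))| < j := by
    rw [abs_div, div_lt_iff₀ h5, abs_mul, abs_mul, abs_of_nonneg (sq_nonneg e)]
    calc e ^ 2 * |p.2.1| * |Ch (j - 1) p.2.1| ≤ e ^ 2 * |p.2.1| * j := by gcongr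
      _ < |D p * D (U^[j] p)| * j := by gcongr
      _ = j * |D p * D (U^[j] p)| := mul_comm _ _
  unfold kap
  have := (abs_lt.1 h6).2
  linarith

theorem kap_lower {e : ℝ} (he : 0 < e) {p : Pt} (hp : p ∈ Surf e) (hy : |p.2.1| < 1)
    (hz : |p.2.2| ≤ 1) {j : ℕ} (ht : (U^[j] p).2.2 ^ 2 ≤ 1 + e ^ 2 / 2) :
    (1 - p.2.1 ^ 2) / 4 * j ≤ kap e p j := by
  have h1 := D_sq_ge hp hy hz
  have hy2 : p.2.1 ^ 2 < 1 := by
    rw [← sq_abs]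
    nlinarith [abs_nonneg p.2.1]
  have h2 : e ^ 2 * (1 + p.2.1 ^ 2) / 2 ≤ D (U^[j] p) ^ 2 := by
    have := D_sq (U_iter_mem hp j)
    rw [U_iter_y] at this
    nlinarith [mul_nonneg (sub_nonneg.2 hy2.le) (sub_nonneg.2 ht)]
  have h3 := Ch_abs_le hy.le j
  have he2 : 0 < e ^ 2 := by positivity
  have h4 : e ^ 2 * |p.2.1| ≤ (3 + p.2.1 ^ 2) / 4 * |D p * D (U^[j] p)| := by
    apply le_of_sq_le_sq _ (by positivity)
    rw [mul_pow, sq_abs, mul_pow, sq_abs, mul_pow]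
    have h5 : e ^ 2 * (e ^ 2 * (1 + p.2.1 ^ 2) / 2) ≤ D p ^ 2 * D (U^[j] p) ^ 2 := by
      apply mul_le_mul h1 h2 (by positivity) (by positivity)
    have h6 : ((3 + p.2.1 ^ 2) / 4) ^ 2 * (e ^ 2 * (e ^ 2 * (1 + p.2.1 ^ 2) / 2))
        ≤ ((3 + p.2.1 ^ 2) / 4) ^ 2 * (D p ^ 2 * D (U^[j] p) ^ 2) := by gcongr
    refine le_trans ?_ h6
    have h7 : 0 ≤ (1 - p.2.1 ^ 2) ^ 2 * (9 + p.2.1 ^ 2) := by positivity
    have h8 : ((3 + p.2.1 ^ 2) / 4) ^ 2 * (e ^ 2 * (e ^ 2 * (1 + p.2.1 ^ 2) / 2))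
        - (e ^ 2) ^ 2 * p.2.1 ^ 2 = (e ^ 2) ^ 2 * ((1 - p.2.1 ^ 2) ^ 2 * (9 + p.2.1 ^ 2)) / 32 := by
      ring
    have h9 : 0 ≤ (e ^ 2) ^ 2 * ((1 - p.2.1 ^ 2) ^ 2 * (9 + p.2.1 ^ 2)) / 32 := by positivity
    linarith
  have h5 : 0 < |D p * D (U^[j] p)| := by
    rw [abs_pos]
    apply mul_ne_zero
    · intro h
      rw [h] at h1
      nlinarith
    · intro h
      rw [h] at h2
      nlinarith [mul_nonneg he2.le (sq_nonneg p.2.1)]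
  have h6 : |e ^ 2 * p.2.1 * Ch (j - 1) p.2.1 / (D p * D (U^[j] p))| ≤ (3 + p.2.1 ^ 2) / 4 * j := by
    rw [abs_div, div_le_iff₀ h5, abs_mul, abs_mul, abs_of_nonneg (sq_nonneg e)]
    calc e ^ 2 * |p.2.1| * |Ch (j - 1) p.2.1| ≤ e ^ 2 * |p.2.1| * j := by gcongr
      _ ≤ (3 + p.2.1 ^ 2) / 4 * |D p * D (U^[j] p)| * j := by gcongr
      _ = (3 + p.2.1 ^ 2) / 4 * j * |D p * D (U^[j] p)| := by ring
  unfold kap
  have := (abs_le.1 h6).2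
  linarith

end TM
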