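import Pool.Agent.Helper55.TM.Basic

/-! Module PR of MP_fc8395_an: `y_N` is a trigonometric polynomial in `τ` with real roots
(`J`-contractions). -/

set_option autoImplicit false

open scoped ContDiff Topology
open Filter Set Matrix

namespace TM

namespace PR

/-- `2 × 2` complex matrices. -/
abbrev M2 := Matrix (Fin 2) (Fin 2) ℂ

/-- The recursion `M_{n+1} = M_{n-1} M_n^{k_n}`, as a pair `(M_n, M_{n-1})`. -/
def MM {R : Type*} [Semiring R] (k : ℕ → ℕ) (X Y : Matrix (Fin 2) (Fin 2) R) :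
    ℕ → Matrix (Fin 2) (Fin 2) R × Matrix (Fin 2) (Fin 2) R
  | 0 => (Y, X)
  | n + 1 => ((MM k X Y n).2 * (MM k X Y n).1 ^ k n, (MM k X Y n).1)

/-- Cayley-Hamilton. -/
lemma cayley {Y : M2} (h : Y.det = 1) : Y * Y = Y.trace • Y - 1 := by
  rw [Matrix.det_fin_two] at h
  ext i j
  fin_cases i <;> fin_cases j <;>
    simp [Matrix.mul_apply, Fin.sum_univ_two, Matrix.trace_fin_two] <;>
    first | ring1 | linear_combination (-h)

/-- The half traces of a pair. -/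
noncomputable def HT (X Y : M2) (p : Pt) : Prop :=
  (p.1 : ℂ) = (X * Y).trace / 2 ∧ (p.2.1 : ℂ) = Y.trace / 2 ∧ (p.2.2 : ℂ) = X.trace / 2

lemma HT_U {X Y : M2} {p : Pt} (hY : Y.det = 1) (h : HT X Y p) : HT (X * Y) Y (U p) := by
  obtain ⟨h1, h2, h3⟩ := h
  refine ⟨?_, h2, h1⟩
  show ((2 * p.1 * p.2.1 - p.2.2 : ℝ) : ℂ) = _
  push_cast
  rw [h1, h2, h3, Matrix.mul_assoc X Y Y, cayley hY, mul_sub, mul_one, Matrix.mul_smul, Matrix.trace_sub,
    Matrix.trace_smul, smul_eq_mul]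
  ring

lemma HT_U_iter {X Y : M2} {p : Pt} (hY : Y.det = 1) (h : HT X Y p) (j : ℕ) :
    HT (X * Y ^ j) Y (U^[j] p) := by
  induction j with
  | zero => simpa using h
  | succ j ih =>
    rw [Function.iterate_succ_apply', pow_succ, ← mul_assoc]
    exact HT_U hY ih

lemma HT_T {X Y : M2} {p : Pt} (hY : Y.det = 1) (h : HT X Y p) (j : ℕ) :
    HT Y (X * Y ^ j) (T j p) := by
  obtain ⟨h1, h2, h3⟩ := HT_U_iter hY h j
  refine ⟨?_, h3, h2⟩
  show ((U^[j] p).1 : ℂ) = _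
  rw [h1, Matrix.trace_mul_comm]

lemma det_MM {X Y : M2} (hX : X.det = 1) (hY : Y.det = 1) (k : ℕ → ℕ) (n : ℕ) :
    (MM k X Y n).1.det = 1 ∧ (MM k X Y n).2.det = 1 := by
  induction n with
  | zero => exact ⟨hY, hX⟩
  | succ n ih =>
    refine ⟨?_, ih.1⟩
    show ((MM k X Y n).2 * (MM k X Y n).1 ^ k n).det = 1
    rw [Matrix.det_mul, Matrix.det_pow, ih.1, ih.2, one_pow, one_mul]

lemma HT_orb {X Y : M2} {p : Pt} (hX : X.det = 1) (hY : Y.det = 1) (h : HT X Y p) (k : ℕ → ℕ)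
    (n : ℕ) : HT (MM k X Y n).2 (MM k X Y n).1 (orb k n p) := by
  induction n with
  | zero => exact h
  | succ n ih => exact HT_T (det_MM hX hY k n).1 ih (k n)

/-! ### contraction -/

/-- The indefinite form. -/
noncomputable def NJ (u : Fin 2 → ℂ) : ℝ := Complex.normSq (u 0) - Complex.normSq (u 1)

/-- `M` is a weak contraction with sign `s`. -/
def Weak (s : ℝ) (M : M2) : Prop := ∀ u : Fin 2 → ℂ, u ≠ 0 → M *ᵥ u ≠ 0 ∧ 0 ≤ s * (NJ u - NJ (M *ᵥ u))

/-- `M` is a strict contraction with sign `s`. -/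
def Strict (s : ℝ) (M : M2) : Prop := ∀ u : Fin 2 → ℂ, u ≠ 0 → M *ᵥ u ≠ 0 ∧ 0 < s * (NJ u - NJ (M *ᵥ u))

lemma Strict.weak {s : ℝ} {M : M2} (h : Strict s M) : Weak s M :=
  fun u hu => ⟨(h u hu).1, (h u hu).2.le⟩

lemma Weak.mul_strict {s : ℝ} {M N : M2} (hM : Weak s M) (hN : Strict s N) : Strict s (M * N) := by
  intro u hu
  have h1 := hN u hu
  have h2 := hM _ h1.1
  rw [← Matrix.mulVec_mulVec]
  refine ⟨h2.1, ?_⟩
  nlinarith [h1.2, h2.2]

lemma Strict.pow {s : ℝ} {M : M2} (hM : Strict s M) {j : ℕ} (hj : 1 ≤ j) : Strict s (M ^ j) := by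
  induction j, hj using Nat.le_induction with
  | base => simpa using hM
  | succ j _ ih =>
    rw [pow_succ']
    exact hM.weak.mul_strict ih

lemma MM_strict {s : ℝ} {X Y : M2} (hX : Weak s X) (hY : Strict s Y) {k : ℕ → ℕ}
    (hk : ∀ i, 1 ≤ k i) (n : ℕ) : Strict s (MM k X Y n).1 ∧ Weak s (MM k X Y n).2 := by
  induction n with
  | zero => exact ⟨hY, hX⟩
  | succ n ih => exact ⟨ih.2.mul_strict (ih.1.pow (hk n)), ih.1.weak⟩

/-- A strict contraction of determinant `1` has no half-trace in `[-1, 1]`. -/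
lemma Strict.trace_ne {s : ℝ} {M : M2} (hM : Strict s M) (hd : M.det = 1) {v : ℝ} (hv : |v| ≤ 1) :
    M.trace / 2 ≠ v := by
  intro h
  have hv2 : v ^ 2 ≤ 1 := by
    rw [← sq_abs]
    nlinarith [abs_nonneg v]
  obtain ⟨t, hs⟩ : ∃ t : ℝ, t ^ 2 = 1 - v ^ 2 :=
    ⟨Real.sqrt (1 - v ^ 2), Real.sq_sqrt (by linarith)⟩
  set μ : ℂ := ⟨v, t⟩ with hμ
  have hn : Complex.normSq μ = 1 := by
    rw [Complex.normSq_apply, hμ]
    simp only
    nlinarith [hs]
  have hq : μ ^ 2 - 2 * v * μ + 1 = 0 := by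
    apply Complex.ext
    · simp only [hμ, pow_two, Complex.add_re, Complex.sub_re, Complex.mul_re, Complex.one_re,
        Complex.re_ofNat, Complex.im_ofNat, Complex.ofReal_re, Complex.ofReal_im, Complex.mul_im,
        Complex.zero_re]
      linear_combination (-hs)
    · simp [hμ, pow_two]
      ring
  have hdet : (M - μ • (1 : M2)).det = 0 := by
    have h1 : (M - μ • (1 : M2)).det = μ ^ 2 - M.trace * μ + M.det := by
      rw [Matrix.det_fin_two, Matrix.det_fin_two, Matrix.trace_fin_two]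
      simp [Matrix.sub_apply]
      ring
    rw [h1, hd]
    have h2 : M.trace = 2 * v := by
      rw [← h]; ring
    rw [h2]
    exact hq
  obtain ⟨u, hu, hMu⟩ := Matrix.exists_mulVec_eq_zero_iff.2 hdet
  have h3 : M *ᵥ u = μ • u := by
    rw [Matrix.sub_mulVec, Matrix.smul_mulVec, Matrix.one_mulVec, sub_eq_zero] at hMu
    exact hMu
  have h4 := (hM u hu).2
  have h5 : NJ (M *ᵥ u) = NJ u := by
    rw [h3]
    simp only [NJ, Pi.smul_apply, smul_eq_mul, Complex.normSq_mul, hn, one_mul]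
  rw [h5, sub_self, mul_zero] at h4
  exact lt_irrefl _ h4

/-- The rotation matrix. -/
noncomputable def Bm (c : ℂ) : M2 := !![c, 0; 0, c⁻¹]

/-- The hyperbolic matrix. -/
noncomputable def Am (a b : ℝ) (w : ℂ) : M2 := !![a * w, b; b, a * w⁻¹]

lemma det_Bm {c : ℂ} (hc : c ≠ 0) : (Bm c).det = 1 := by
  rw [Bm, Matrix.det_fin_two_of, mul_inv_cancel₀ hc]; ring

lemma det_Am {a b : ℝ} {w : ℂ} (hw : w ≠ 0) (h : a ^ 2 - b ^ 2 = 1) : (Am a b w).det = 1 := by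
  rw [Am, Matrix.det_fin_two_of]
  have h1 : (a : ℂ) ^ 2 - (b : ℂ) ^ 2 = 1 := by exact_mod_cast h
  field_simp
  linear_combination h1

lemma mulVec_ne {M : M2} (h : M.det = 1) {u : Fin 2 → ℂ} (hu : u ≠ 0) : M *ᵥ u ≠ 0 := by
  intro h0
  have := Matrix.exists_mulVec_eq_zero_iff.1 ⟨u, hu, h0⟩
  rw [h] at this
  exact one_ne_zero this

lemma weak_Bm {s : ℝ} {c : ℂ} (hc : ‖c‖ = 1) : Weak s (Bm c) := by
  have hc0 : c ≠ 0 := by
    intro h
    rw [h, norm_zero] at hc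
    norm_num at hc
  intro u hu
  refine ⟨mulVec_ne (det_Bm hc0) hu, ?_⟩
  have h1 : Complex.normSq c = 1 := by rw [Complex.normSq_eq_norm_sq, hc, one_pow]
  have h2 : NJ (Bm c *ᵥ u) = NJ u := by
    simp [NJ, Bm, Matrix.mulVec, dotProduct, Fin.sum_univ_two, Complex.normSq_mul, h1]
  rw [h2, sub_self, mul_zero]

lemma strict_Am {a b : ℝ} {w : ℂ} (ha : 0 < a) (hb : 0 ≤ b) (h : a ^ 2 - b ^ 2 = 1) (hw : w ≠ 0)
    (hw1 : ‖w‖ ≠ 1) : Strict (1 - ‖w‖) (Am a b w) := by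
  intro u hu
  refine ⟨mulVec_ne (det_Am hw h) hu, ?_⟩
  set ρ := ‖w‖ with hρ
  have hρ0 : 0 < ρ := norm_pos_iff.2 hw
  have hn : Complex.normSq w = ρ ^ 2 := Complex.normSq_eq_norm_sq w
  -- the cross term
  set R : ℝ := (w * u 0 * (starRingEnd ℂ) (u 1)).re with hR
  have hRle : |R| ≤ ρ * ‖u 0‖ * ‖u 1‖ := by
    calc |R| ≤ ‖w * u 0 * (starRingEnd ℂ) (u 1)‖ := Complex.abs_re_le_norm _
      _ = ρ * ‖u 0‖ * ‖u 1‖ := by rw [norm_mul, norm_mul, Complex.norm_conj]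
  have e0 : (Am a b w *ᵥ u) 0 = a * w * u 0 + b * u 1 := by
    simp [Am, Matrix.mulVec, dotProduct, Fin.sum_univ_two]
  have e1 : (Am a b w *ᵥ u) 1 = b * u 0 + a * w⁻¹ * u 1 := by
    simp [Am, Matrix.mulVec, dotProduct, Fin.sum_univ_two]
  have n0 : Complex.normSq (a * w * u 0 + b * u 1)
      = a ^ 2 * ρ ^ 2 * ‖u 0‖ ^ 2 + b ^ 2 * ‖u 1‖ ^ 2 + 2 * a * b * R := by
    rw [Complex.normSq_add, Complex.normSq_mul, Complex.normSq_mul, Complex.normSq_mul, hn,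
      Complex.normSq_ofReal, Complex.normSq_ofReal, Complex.normSq_eq_norm_sq,
      Complex.normSq_eq_norm_sq]
    have : (a * w * u 0 * (starRingEnd ℂ) (b * u 1)).re = a * b * R := by
      rw [map_mul, Complex.conj_ofReal, hR]
      rw [show (a : ℂ) * w * u 0 * (b * (starRingEnd ℂ) (u 1))
        = ((a * b : ℝ) : ℂ) * (w * u 0 * (starRingEnd ℂ) (u 1)) by push_cast; ring]
      rw [Complex.re_ofReal_mul]
    rw [this]
    ring
  have n1 : Complex.normSq (b * u 0 + a * w⁻¹ * u 1)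
      = b ^ 2 * ‖u 0‖ ^ 2 + a ^ 2 * (ρ ^ 2)⁻¹ * ‖u 1‖ ^ 2 + 2 * a * b * (R * (ρ ^ 2)⁻¹) := by
    rw [Complex.normSq_add, Complex.normSq_mul, Complex.normSq_mul, Complex.normSq_mul,
      Complex.normSq_inv, hn,
      Complex.normSq_ofReal, Complex.normSq_ofReal, Complex.normSq_eq_norm_sq,
      Complex.normSq_eq_norm_sq]
    have : (b * u 0 * (starRingEnd ℂ) (a * w⁻¹ * u 1)).re = a * b * (R * (ρ ^ 2)⁻¹) := by
      rw [map_mul, map_mul, Complex.conj_ofReal, hR, map_inv₀]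
      have hcw : ((starRingEnd ℂ) w)⁻¹ = w * ((ρ ^ 2)⁻¹ : ℝ) := by
        rw [← hn, Complex.inv_def, Complex.conj_conj, Complex.normSq_conj]
      rw [hcw]
      rw [show (b : ℂ) * u 0 * (a * (w * ((ρ ^ 2)⁻¹ : ℝ)) * (starRingEnd ℂ) (u 1))
        = ((a * b * (ρ ^ 2)⁻¹ : ℝ) : ℂ) * (w * u 0 * (starRingEnd ℂ) (u 1)) by push_cast; ring]
      rw [Complex.re_ofReal_mul]
      ring
    rw [this]
    ring
  have hN : NJ u - NJ (Am a b w *ᵥ u)
      = a * ((ρ ^ 2)⁻¹ - 1) * (a * ρ ^ 2 * ‖u 0‖ ^ 2 + a * ‖u 1‖ ^ 2 + 2 * b * R) := by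
    simp only [NJ]
    rw [e0, e1, n0, n1, Complex.normSq_eq_norm_sq, Complex.normSq_eq_norm_sq]
    have h2 : (ρ ^ 2)⁻¹ * ρ ^ 2 = 1 := inv_mul_cancel₀ (by positivity)
    linear_combination (-a ^ 2 * ‖u 0‖ ^ 2 ) * h2 - (‖u 0‖ ^ 2 - ‖u 1‖ ^ 2) * h
  have hba : b < a := by nlinarith
  have hpos : 0 < a * ρ ^ 2 * ‖u 0‖ ^ 2 + a * ‖u 1‖ ^ 2 + 2 * b * R := by
    have h1 : -(ρ * ‖u 0‖ * ‖u 1‖) ≤ R := by
      have := neg_abs_le R
      linarith
    have h2 : 2 * b * R ≥ -(2 * b * (ρ * ‖u 0‖ * ‖u 1‖)) := by nlinarith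
    have h3 : 0 < ρ ^ 2 * ‖u 0‖ ^ 2 + ‖u 1‖ ^ 2 := by
      by_contra hcon
      push Not at hcon
      have h4 : ‖u 1‖ = 0 := by
        have : ‖u 1‖ ^ 2 ≤ 0 := by nlinarith [sq_nonneg (ρ * ‖u 0‖)]
        nlinarith [norm_nonneg (u 1)]
      have h5 : ‖u 0‖ = 0 := by
        have h6 : (ρ * ‖u 0‖) ^ 2 ≤ 0 := by nlinarith [sq_nonneg (‖u 1‖)]
        have h7 : ρ * ‖u 0‖ = 0 := by
          have := sq_nonneg (ρ * ‖u 0‖)
          exact pow_eq_zero_iff (two_ne_zero) |>.1 (le_antisymm h6 this)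
        rcases mul_eq_zero.1 h7 with h8 | h8
        · exact absurd h8 hρ0.ne'
        · exact h8
      apply hu
      funext i
      fin_cases i
      · exact norm_eq_zero.1 h5
      · exact norm_eq_zero.1 h4
    nlinarith [sq_nonneg (ρ * ‖u 0‖ - ‖u 1‖), mul_pos (sub_pos.2 hba) h3,
      mul_nonneg hb (sq_nonneg (ρ * ‖u 0‖ - ‖u 1‖))]
  rw [hN]
  have hsign : 0 < (1 - ρ) * ((ρ ^ 2)⁻¹ - 1) := by
    have h1 : (ρ ^ 2)⁻¹ - 1 = (1 - ρ) * ((1 + ρ) / ρ ^ 2) := by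
      field_simp
      ring
    rw [h1, ← mul_assoc]
    have h2 : 0 < (1 - ρ) * (1 - ρ) := mul_self_pos.2 (sub_ne_zero.2 (Ne.symm hw1))
    positivity
  have : (1 - ρ) * (a * ((ρ ^ 2)⁻¹ - 1) * (a * ρ ^ 2 * ‖u 0‖ ^ 2 + a * ‖u 1‖ ^ 2 + 2 * b * R))
      = a * ((1 - ρ) * ((ρ ^ 2)⁻¹ - 1)) * (a * ρ ^ 2 * ‖u 0‖ ^ 2 + a * ‖u 1‖ ^ 2 + 2 * b * R) := by
    ring
  rw [this]
  positivity

/-! ### the polynomial matrices -/

open Polynomial in
/-- Degree at most `2m`, diagonal leading and constant coefficients. -/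
def Cls (m : ℕ) (M : Matrix (Fin 2) (Fin 2) ℂ[X]) : Prop :=
  (∀ i j, (M i j).natDegree ≤ 2 * m) ∧
  ((M 0 0).coeff (2 * m) ≠ 0 ∧ (M 0 1).coeff (2 * m) = 0 ∧ (M 1 0).coeff (2 * m) = 0) ∧
  ((M 1 1).coeff 0 ≠ 0 ∧ (M 0 1).coeff 0 = 0 ∧ (M 1 0).coeff 0 = 0)

open Polynomial in
/-- The strong form. -/
def Str (m : ℕ) (M : Matrix (Fin 2) (Fin 2) ℂ[X]) : Prop :=
  Cls m M ∧ (M 1 1).coeff (2 * m) = 0 ∧ (M 0 0).coeff 0 = 0

open Polynomial in
lemma coeff_top {m m' : ℕ} {M M' : Matrix (Fin 2) (Fin 2) ℂ[X]}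
    (h : ∀ i j, (M i j).natDegree ≤ 2 * m) (h' : ∀ i j, (M' i j).natDegree ≤ 2 * m') (i j : Fin 2) :
    ((M * M') i j).coeff (2 * (m + m')) = (M i 0).coeff (2 * m) * (M' 0 j).coeff (2 * m')
      + (M i 1).coeff (2 * m) * (M' 1 j).coeff (2 * m') := by
  rw [Matrix.mul_apply, Fin.sum_univ_two, coeff_add, mul_add 2 m m',
    coeff_mul_add_eq_of_natDegree_le (h i 0) (h' 0 j),
    coeff_mul_add_eq_of_natDegree_le (h i 1) (h' 1 j)]

open Polynomial in
lemma coeff_bot {M M' : Matrix (Fin 2) (Fin 2) ℂ[X]} (i j : Fin 2) :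
    ((M * M') i j).coeff 0 = (M i 0).coeff 0 * (M' 0 j).coeff 0
      + (M i 1).coeff 0 * (M' 1 j).coeff 0 := by
  rw [Matrix.mul_apply, Fin.sum_univ_two, coeff_add, mul_coeff_zero, mul_coeff_zero]

open Polynomial in
lemma Cls.mul {m m' : ℕ} {M M' : Matrix (Fin 2) (Fin 2) ℂ[X]} (h : Cls m M) (h' : Cls m' M') :
    Cls (m + m') (M * M') := by
  obtain ⟨h1, ⟨h2, h3, h4⟩, h5, h6, h7⟩ := h
  obtain ⟨k1, ⟨k2, k3, k4⟩, k5, k6, k7⟩ := h'
  refine ⟨?_, ⟨?_, ?_, ?_⟩, ?_, ?_, ?_⟩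
  · intro i j
    rw [Matrix.mul_apply, Fin.sum_univ_two, mul_add 2 m m']
    refine (natDegree_add_le _ _).trans (max_le ?_ ?_)
    · exact natDegree_mul_le.trans (add_le_add (h1 _ _) (k1 _ _))
    · exact natDegree_mul_le.trans (add_le_add (h1 _ _) (k1 _ _))
  · rw [coeff_top h1 k1, h3, zero_mul, add_zero]
    exact mul_ne_zero h2 k2
  · rw [coeff_top h1 k1, h3, k3, zero_mul, mul_zero, add_zero]
  · rw [coeff_top h1 k1, h4, k4, zero_mul, mul_zero, add_zero]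
  · rw [coeff_bot, h7, zero_mul, zero_add]
    exact mul_ne_zero h5 k5
  · rw [coeff_bot, k6, h6, zero_mul, mul_zero, add_zero]
  · rw [coeff_bot, h7, k7, zero_mul, mul_zero, add_zero]

open Polynomial in
lemma Cls.mul_str {m m' : ℕ} {M M' : Matrix (Fin 2) (Fin 2) ℂ[X]} (h : Cls m M) (h' : Str m' M') :
    Str (m + m') (M * M') := by
  refine ⟨h.mul h'.1, ?_, ?_⟩
  · rw [coeff_top h.1 h'.1.1, h'.2.1, h.2.1.2.2, zero_mul, mul_zero, add_zero]
  · rw [coeff_bot, h'.2.2, h.2.2.2.1, zero_mul, mul_zero, add_zero]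

open Polynomial in
lemma Str.pow {m : ℕ} {M : Matrix (Fin 2) (Fin 2) ℂ[X]} (h : Str m M) {j : ℕ} (hj : 1 ≤ j) :
    Str (j * m) (M ^ j) := by
  induction j, hj using Nat.le_induction with
  | base => simpa using h
  | succ j _ ih =>
    rw [pow_succ', add_mul, one_mul, add_comm]
    exact h.1.mul_str ih

open Polynomial in
lemma MM_str {X Y : Matrix (Fin 2) (Fin 2) ℂ[X]} (hX : Cls 0 X) (hY : Str 1 Y) {k : ℕ → ℕ}
    (hk : ∀ i, 1 ≤ k i) (n : ℕ) :
    Str (dg k n).1 (MM k X Y n).1 ∧ Cls (dg k n).2 (MM k X Y n).2 := by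
  induction n with
  | zero => exact ⟨hY, hX⟩
  | succ n ih => exact ⟨ih.2.mul_str (ih.1.pow (hk n)), ih.1.1⟩

open Polynomial in
/-- The polynomial rotation matrix. -/
noncomputable def PX (c : ℂ) : Matrix (Fin 2) (Fin 2) ℂ[X] := !![C c, 0; 0, C c⁻¹]

open Polynomial in
/-- The polynomial hyperbolic matrix. -/
noncomputable def PY (a b : ℝ) : Matrix (Fin 2) (Fin 2) ℂ[X] :=
  !![C (a : ℂ) * X ^ 2, C (b : ℂ) * X; C (b : ℂ) * X, C (a : ℂ)]

open Polynomial in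
lemma cls_PX {c : ℂ} (hc : c ≠ 0) : Cls 0 (PX c) := by
  refine ⟨?_, ⟨?_, ?_, ?_⟩, ?_, ?_, ?_⟩
  · intro i j
    fin_cases i <;> fin_cases j <;> simp [PX]
  all_goals simp [PX, hc]

open Polynomial in
lemma str_PY {a b : ℝ} (ha : a ≠ 0) : Str 1 (PY a b) := by
  have ha' : (a : ℂ) ≠ 0 := by exact_mod_cast ha
  refine ⟨⟨?_, ⟨?_, ?_, ?_⟩, ?_, ?_, ?_⟩, ?_, ?_⟩
  · intro i j
    fin_cases i <;> fin_cases j
    · show (C (a : ℂ) * X ^ 2).natDegree ≤ 2 * 1
      exact natDegree_C_mul_X_pow_le _ _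
    · show (C (b : ℂ) * X).natDegree ≤ 2 * 1
      exact (natDegree_C_mul_le _ _).trans (natDegree_X_le.trans (by norm_num))
    · show (C (b : ℂ) * X).natDegree ≤ 2 * 1
      exact (natDegree_C_mul_le _ _).trans (natDegree_X_le.trans (by norm_num))
    · show (C (a : ℂ)).natDegree ≤ 2 * 1
      rw [natDegree_C]; norm_num
  · show (C (a : ℂ) * X ^ 2).coeff (2 * 1) ≠ 0
    simpa using ha
  · show (C (b : ℂ) * X).coeff (2 * 1) = 0
    simp
  · show (C (b : ℂ) * X).coeff (2 * 1) = 0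
    simp
  · show (C (a : ℂ)).coeff 0 ≠ 0
    simpa using ha
  · show (C (b : ℂ) * X).coeff 0 = 0
    simp
  · show (C (b : ℂ) * X).coeff 0 = 0
    simp
  · show (C (a : ℂ)).coeff (2 * 1) = 0
    simp
  · show (C (a : ℂ) * X ^ 2).coeff 0 = 0
    simp

open Polynomial in
/-- Evaluation of the polynomial matrices. -/
lemma eval_MM {a b : ℝ} {c w : ℂ} (hw : w ≠ 0) (k : ℕ → ℕ) (n : ℕ) :
    (evalRingHom w).mapMatrix (MM k (PX c) (PY a b) n).1
        = w ^ (dg k n).1 • (MM k (Bm c) (Am a b w) n).1 ∧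
      (evalRingHom w).mapMatrix (MM k (PX c) (PY a b) n).2
        = w ^ (dg k n).2 • (MM k (Bm c) (Am a b w) n).2 := by
  induction n with
  | zero =>
    constructor
    · show (evalRingHom w).mapMatrix (PY a b) = w ^ 1 • Am a b w
      ext i j
      fin_cases i <;> fin_cases j <;> simp [PY, Am] <;> field_simp
    · show (evalRingHom w).mapMatrix (PX c) = w ^ 0 • Bm c
      ext i j
      fin_cases i <;> fin_cases j <;> simp [PX, Bm]
  | succ n ih =>
    refine ⟨?_, ih.1⟩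
    show (evalRingHom w).mapMatrix ((MM k (PX c) (PY a b) n).2 * (MM k (PX c) (PY a b) n).1 ^ k n)
      = w ^ ((dg k n).2 + k n * (dg k n).1) •
        ((MM k (Bm c) (Am a b w) n).2 * (MM k (Bm c) (Am a b w) n).1 ^ k n)
    rw [map_mul, map_pow, ih.1, ih.2, _root_.smul_pow, smul_mul_smul_comm, pow_add, ← pow_mul,
      mul_comm (k n)]

lemma dg_pos {k : ℕ → ℕ} (hk : ∀ i, 1 ≤ k i) (n : ℕ) : 1 ≤ (dg k n).1 := by
  induction n with
  | zero => exact le_refl 1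
  | succ n ih =>
    show 1 ≤ (dg k n).2 + k n * (dg k n).1
    have := Nat.mul_le_mul (hk n) ih
    omega

open Polynomial in
/-- The polynomial `Q`. -/
noncomputable def QQ (k : ℕ → ℕ) (a b : ℝ) (c : ℂ) (n : ℕ) : ℂ[X] :=
  C (1 / 2 : ℂ) * (MM k (PX c) (PY a b) n).1.trace

open Polynomial in
lemma eval_QQ {a b : ℝ} {c w : ℂ} (hw : w ≠ 0) (k : ℕ → ℕ) (n : ℕ) :
    (QQ k a b c n).eval w = w ^ (dg k n).1 * ((MM k (Bm c) (Am a b w) n).1.trace / 2) := by
  have h1 := (eval_MM (a := a) (b := b) (c := c) hw k n).1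
  have h2 : ((MM k (PX c) (PY a b) n).1.trace).eval w
      = (w ^ (dg k n).1 • (MM k (Bm c) (Am a b w) n).1).trace := by
    rw [← h1, Matrix.trace_fin_two, Matrix.trace_fin_two, eval_add]
    rfl
  unfold QQ
  rw [eval_mul, eval_C, h2, Matrix.trace_smul, smul_eq_mul]
  ring

open Polynomial in
lemma natDegree_QQ {a b : ℝ} {c : ℂ} (ha : a ≠ 0) (hc : c ≠ 0) {k : ℕ → ℕ} (hk : ∀ i, 1 ≤ k i)
    (n : ℕ) : (QQ k a b c n).natDegree = 2 * (dg k n).1 ∧ (QQ k a b c n).coeff 0 ≠ 0 := by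
  obtain ⟨⟨⟨h1, ⟨h2, h3, h4⟩, h5, h6, h7⟩, h8, h9⟩, -⟩ := MM_str (cls_PX hc) (str_PY (b := b) ha) hk n
  unfold QQ
  rw [Matrix.trace_fin_two]
  constructor
  · apply le_antisymm
    · refine natDegree_C_mul_le _ _ |>.trans ?_
      exact (natDegree_add_le _ _).trans (max_le (h1 _ _) (h1 _ _))
    · apply le_natDegree_of_ne_zero
      rw [coeff_C_mul, coeff_add, h8, add_zero]
      exact mul_ne_zero (by norm_num) h2
  · rw [coeff_C_mul, coeff_add, h9, zero_add]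
    exact mul_ne_zero (by norm_num) h5

end PR

open PR in
theorem poly_repr {e : ℝ} (he : 0 < e) {k : ℕ → ℕ} (hk : ∀ i, 1 ≤ k i) {ζ : ℝ} (h0 : 0 < ζ)
    (h1 : ζ < Real.pi) (N : ℕ) : RT 1 (dg k N).1 (fun τ => F e k N (ζ, τ)) := by
  have hs : 0 < Real.sin ζ := Real.sin_pos_of_pos_of_lt_pi h0 h1
  set a : ℝ := Amp e ζ with ha
  set b : ℝ := e / Real.sin ζ with hb
  have hb0 : 0 < b := div_pos he hs
  have ha2 : a ^ 2 = 1 + b ^ 2 := by
    rw [ha, hb, Amp, Real.sq_sqrt (by positivity), div_pow]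
  have hab : a ^ 2 - b ^ 2 = 1 := by rw [ha2]; ring
  have ha0 : 0 < a := by
    have h3 : 0 ≤ a := Real.sqrt_nonneg _
    rcases h3.lt_or_eq with h4 | h4
    · exact h4
    · rw [← h4] at ha2
      nlinarith [sq_nonneg b]
  set c : ℂ := Complex.exp (Complex.I * ζ) with hc
  have hc1 : ‖c‖ = 1 := by
    rw [hc, mul_comm]; exact Complex.norm_exp_ofReal_mul_I ζ
  have hc0 : c ≠ 0 := Complex.exp_ne_zero _
  obtain ⟨hdeg, hcoef⟩ := natDegree_QQ (b := b) ha0.ne' hc0 hk N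
  refine ⟨QQ k a b c N, hdeg, hcoef, ?_, ?_⟩
  · intro τ
    have hw : Complex.exp (Complex.I * τ) ≠ 0 := Complex.exp_ne_zero _
    have hHT : HT (Bm c) (Am a b (Complex.exp (Complex.I * τ))) (Psi e ζ τ) := by
      refine ⟨?_, ?_, ?_⟩
      · show ((Amp e ζ * Real.cos (τ + ζ) : ℝ) : ℂ) = _
        rw [← ha]
        have : (Bm c * Am a b (Complex.exp (Complex.I * τ))).trace
            = a * (Complex.exp (((τ + ζ : ℝ) : ℂ) * Complex.I)
              + Complex.exp (-((τ + ζ : ℝ) : ℂ) * Complex.I)) := by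
          rw [Matrix.trace_fin_two]
          simp only [Bm, Am, Matrix.mul_apply, Fin.sum_univ_two, Matrix.of_apply, Matrix.cons_val',
            Matrix.cons_val_zero, Matrix.cons_val_one, Matrix.cons_val_fin_one, zero_mul, add_zero,
            zero_add]
          rw [hc, ← Complex.exp_neg, ← Complex.exp_neg]
          have e1 : Complex.exp (((τ + ζ : ℝ) : ℂ) * Complex.I)
              = Complex.exp (Complex.I * ζ) * Complex.exp (Complex.I * τ) := by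
            rw [← Complex.exp_add]; congr 1; push_cast; ring
          have e2 : Complex.exp (-((τ + ζ : ℝ) : ℂ) * Complex.I)
              = Complex.exp (-(Complex.I * ζ)) * Complex.exp (-(Complex.I * τ)) := by
            rw [← Complex.exp_add]; congr 1; push_cast; ring
          rw [e1, e2]
          ring
        rw [this, Complex.ofReal_mul, Complex.ofReal_cos, Complex.cos]
        ring
      · show ((Amp e ζ * Real.cos τ : ℝ) : ℂ) = _
        rw [← ha]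
        have : (Am a b (Complex.exp (Complex.I * τ))).trace
            = a * (Complex.exp (((τ : ℝ) : ℂ) * Complex.I)
              + Complex.exp (-((τ : ℝ) : ℂ) * Complex.I)) := by
          rw [Matrix.trace_fin_two]
          simp only [Am, Matrix.of_apply, Matrix.cons_val',
            Matrix.cons_val_zero, Matrix.cons_val_one, Matrix.cons_val_fin_one]
          rw [← Complex.exp_neg]
          rw [show -(Complex.I * (τ : ℂ)) = -(τ : ℂ) * Complex.I by ring, mul_comm Complex.I (τ : ℂ)]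
          ring
        rw [this, Complex.ofReal_mul, Complex.ofReal_cos, Complex.cos]
        ring
      · show ((Real.cos ζ : ℝ) : ℂ) = _
        have : (Bm c).trace
            = (Complex.exp (((ζ : ℝ) : ℂ) * Complex.I)
              + Complex.exp (-((ζ : ℝ) : ℂ) * Complex.I)) := by
          rw [Matrix.trace_fin_two]
          simp only [Bm, Matrix.of_apply, Matrix.cons_val',
            Matrix.cons_val_zero, Matrix.cons_val_one, Matrix.cons_val_fin_one]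
          rw [hc, ← Complex.exp_neg]
          rw [show -(Complex.I * (ζ : ℂ)) = -(ζ : ℂ) * Complex.I by ring, mul_comm Complex.I (ζ : ℂ)]
        rw [this, Complex.ofReal_cos, Complex.cos]
    have h3 := (HT_orb (det_Bm hc0) (det_Am hw hab) hHT k N).2.1
    rw [eval_QQ hw, ← h3]
    show ((orb k N (Psi e ζ τ)).2.1 : ℂ) * _ = _
    rw [mul_comm, ← Complex.exp_nat_mul]
    congr 2
    ring
  · intro v hv z hz
    have hm := dg_pos hk N
    have hz0 : z ≠ 0 := by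
      intro h
      rw [h, zero_pow (by omega), mul_zero, ← Polynomial.coeff_zero_eq_eval_zero] at hz
      exact hcoef hz
    rw [eval_QQ hz0, mul_comm] at hz
    have h3 := mul_right_cancel₀ (pow_ne_zero _ hz0) hz
    by_contra hne
    have h4 := (MM_strict (weak_Bm (s := 1 - ‖z‖) hc1) (strict_Am ha0 hb0.le hab hz0 hne) hk N).1
    exact h4.trace_ne (det_MM (det_Bm hc0) (det_Am hz0 hab) k N).1 hv.le h3

end TM
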