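import Pool.Agent.Helper72.BA.Defs

/-! Module FB2 of MP_3dd6d4_an: Plancherel and the Fourier transform of a product. -/

set_option autoImplicit false

open MeasureTheory Complex FourierTransform Filter Topology
open scoped ENNReal NNReal ComplexConjugate

noncomputable section

namespace Helper72.BA.P
open Helper72.BA

/-- a nice function is in `L²` -/
theorem memLp_two_of_nice {f : ℂ → ℂ} (hf : Nice f) : MemLp f 2 := by
  obtain ⟨C, hC⟩ := hf.bdd
  rw [memLp_two_iff_integrable_sq_norm hf.meas.aestronglyMeasurable]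
  refine (hf.int.norm.const_mul C).mono' (hf.meas.norm.pow_const 2).aestronglyMeasurable
    (ae_of_all _ fun z => ?_)
  rw [Real.norm_of_nonneg (by positivity), sq]
  exact mul_le_mul_of_nonneg_right (hC z) (norm_nonneg _)

theorem continuous_fourier_of_int {f : ℂ → ℂ} (hf : Integrable f) : Continuous (𝓕 f) :=
  VectorFourier.fourierIntegral_continuous Real.continuous_fourierChar continuous_inner hf

/-- the `L²` Fourier transform agrees with the integral on nice functions -/
theorem fourier_toLp_ae {f : ℂ → ℂ} (hf : Nice f) :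
    ∀ᵐ x : ℂ, (𝓕 ((memLp_two_of_nice hf).toLp f) : Lp ℂ 2 (volume : Measure ℂ)) x = 𝓕 f x := by
  set F : Lp ℂ 2 (volume : Measure ℂ) := (memLp_two_of_nice hf).toLp f with hF
  apply ae_eq_of_integral_contDiff_smul_eq
  · exact ((Lp.memLp (𝓕 F)).locallyIntegrable (by norm_num))
  · exact (continuous_fourier_of_int hf.int).locallyIntegrable
  · intro g hg hgs
    have hgs' : HasCompactSupport (fun x => (g x : ℂ)) :=
      hgs.comp_left (g := fun r : ℝ => (r : ℂ)) (by simp)
    have hg' : ContDiff ℝ ((⊤ : ℕ∞) : WithTop ℕ∞) (fun x => (g x : ℂ)) :=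
      Complex.ofRealCLM.contDiff.comp hg
    set G : SchwartzMap ℂ ℂ := hgs'.toSchwartzMap hg' with hG
    have hGg : ∀ x, G x = (g x : ℂ) := fun x => rfl
    have h1 : (𝓕 (F : TemperedDistribution ℂ ℂ)) G = ((𝓕 F : Lp ℂ 2 (volume : Measure ℂ)) :
        TemperedDistribution ℂ ℂ) G := by
      rw [MeasureTheory.Lp.fourier_toTemperedDistribution_eq]
    rw [TemperedDistribution.fourier_apply, Lp.toTemperedDistribution_apply,
      Lp.toTemperedDistribution_apply] at h1
    have h2 : ∫ x, g x • (𝓕 F : Lp ℂ 2 (volume : Measure ℂ)) x =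
        ∫ x, G x • (𝓕 F : Lp ℂ 2 (volume : Measure ℂ)) x := by
      apply integral_congr_ae (ae_of_all _ fun x => ?_)
      simp [hGg]
    have h3 : ∫ x, (𝓕 G) x • F x = ∫ x, (𝓕 (G : ℂ → ℂ)) x • f x := by
      apply integral_congr_ae
      filter_upwards [(memLp_two_of_nice hf).coeFn_toLp] with x hx
      rw [hF, hx, SchwartzMap.fourier_coe]
    have h4 : ∫ x, (𝓕 (G : ℂ → ℂ)) x • f x = ∫ x, G x • 𝓕 f x := by
      have := VectorFourier.integral_fourierIntegral_smul_eq_flip (L := innerₗ ℂ) (μ := volume)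
        (ν := volume) Real.continuous_fourierChar continuous_inner G.integrable hf.int
      simpa using! this
    have h5 : ∫ x, G x • 𝓕 f x = ∫ x, g x • 𝓕 f x := by
      apply integral_congr_ae (ae_of_all _ fun x => ?_)
      simp [hGg]
    rw [h2, ← h1, h3, h4, h5]

/-- Plancherel. -/
theorem plancherel {f : ℂ → ℂ} (hf : Nice f) : ∫⁻ ξ, ‖𝓕 f ξ‖ₑ ^ 2 = ∫⁻ z, ‖f z‖ₑ ^ 2 := by
  set F : Lp ℂ 2 (volume : Measure ℂ) := (memLp_two_of_nice hf).toLp f with hF
  have h1 : ‖𝓕 F‖ = ‖F‖ := Lp.norm_fourier_eq F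
  have h2 : ‖𝓕 F‖ₑ = ‖F‖ₑ := by rw [← ofReal_norm, ← ofReal_norm, h1]
  rw [Lp.enorm_def, Lp.enorm_def] at h2
  have h3 : eLpNorm (𝓕 F : Lp ℂ 2 (volume : Measure ℂ)) 2 volume = eLpNorm (𝓕 f) 2 volume :=
    eLpNorm_congr_ae (fourier_toLp_ae hf)
  have h4 : eLpNorm F 2 volume = eLpNorm f 2 volume :=
    eLpNorm_congr_ae (memLp_two_of_nice hf).coeFn_toLp
  rw [h3, h4] at h2
  have key : ∀ g : ℂ → ℂ, ∫⁻ z, ‖g z‖ₑ ^ 2 = (eLpNorm g 2 volume) ^ 2 := by
    intro g
    rw [eLpNorm_eq_lintegral_rpow_enorm_toReal (by norm_num) (by norm_num), ← ENNReal.rpow_natCast,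
      ← ENNReal.rpow_mul]
    norm_num
  rw [key, key, h2]

/-- Fourier transform of a product. -/
theorem fourier_mul {a b : ℂ → ℂ} (ha : Nice a) (hb : Nice b) (hbc : Continuous b)
    (hbi : Integrable (𝓕 b)) (ξ : ℂ) :
    𝓕 (fun z => a z * b z) ξ = ∫ η, 𝓕 b η * 𝓕 a (ξ - η) := by
  have hinv : ∀ z, b z = ∫ η, 𝐞 (inner ℝ η z) • 𝓕 b η := by
    intro z
    have := congrFun (hbc.fourierInv_fourier_eq hb.int hbi) z
    rw [← this, Real.fourierInv_eq]
  have hbi' : ∀ z, Integrable (fun η => 𝐞 (inner ℝ η z) • 𝓕 b η) := by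
    intro z
    refine hbi.mono ?_ (ae_of_all _ fun η => by rw [Circle.norm_smul])
    apply AEStronglyMeasurable.smul
    · apply Continuous.aestronglyMeasurable
      have : Continuous fun η : ℂ => (inner ℝ η z : ℝ) := by fun_prop
      exact continuous_induced_dom.comp (Real.continuous_fourierChar.comp this)
    · exact hbi.aestronglyMeasurable
  have h1 : 𝓕 (fun z => a z * b z) ξ =
      ∫ z, ∫ η, 𝐞 (-inner ℝ z (ξ - η)) • (𝓕 b η * a z) := by
    rw [Real.fourier_eq]
    apply integral_congr_ae (ae_of_all _ fun z => ?_)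
    show 𝐞 (-inner ℝ z ξ) • (a z * b z) = _
    conv_lhs => rw [hinv z]
    rw [← integral_const_mul, Circle.smul_def, smul_eq_mul, ← integral_const_mul]
    apply integral_congr_ae (ae_of_all _ fun η => ?_)
    show (𝐞 (-inner ℝ z ξ) : ℂ) * (a z * 𝐞 (inner ℝ η z) • 𝓕 b η) =
      𝐞 (-inner ℝ z (ξ - η)) • (𝓕 b η * a z)
    have : 𝐞 (-inner ℝ z (ξ - η)) = 𝐞 (-inner ℝ z ξ) * 𝐞 (inner ℝ η z) := by
      rw [← AddChar.map_add_eq_mul, inner_sub_right, real_inner_comm η z]
      congr 1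
      rw [real_inner_comm]
      ring
    rw [this, Circle.smul_def, Circle.smul_def, Circle.coe_mul, smul_eq_mul, smul_eq_mul]
    ring
  rw [h1, integral_integral_swap]
  · apply integral_congr_ae (ae_of_all _ fun η => ?_)
    show ∫ z, 𝐞 (-inner ℝ z (ξ - η)) • (𝓕 b η * a z) = 𝓕 b η * 𝓕 a (ξ - η)
    have h3 : 𝓕 a (ξ - η) = ∫ z, 𝐞 (-inner ℝ z (ξ - η)) • a z := Real.fourier_eq _ _
    rw [h3, ← integral_const_mul]
    apply integral_congr_ae (ae_of_all _ fun z => ?_)
    show 𝐞 (-inner ℝ z (ξ - η)) • (𝓕 b η * a z) = 𝓕 b η * 𝐞 (-inner ℝ z (ξ - η)) • a z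
    rw [Circle.smul_def, Circle.smul_def, smul_eq_mul, smul_eq_mul]
    ring
  · have h2 : Integrable (Function.uncurry fun (z η : ℂ) => 𝓕 b η * a z) (volume.prod volume) := by
      have := (hbi.mul_prod ha.int).swap
      exact this
    refine h2.mono ?_ (ae_of_all _ fun p => ?_)
    · apply AEStronglyMeasurable.smul
      · apply Continuous.aestronglyMeasurable
        have : Continuous fun p : ℂ × ℂ => (-inner ℝ p.1 (ξ - p.2) : ℝ) := by fun_prop
        exact continuous_induced_dom.comp (Real.continuous_fourierChar.comp this)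
      · exact h2.aestronglyMeasurable
    · simp only [Function.uncurry, Circle.norm_smul]
      exact le_rfl

end Helper72.BA.P
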