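import Pool.Agent.Helper72.BA.Stubs

/-! Module UK of MP_3dd6d4_an. -/

set_option autoImplicit false

open MeasureTheory Complex FourierTransform Filter Topology
open scoped ENNReal NNReal ComplexConjugate

noncomputable section

namespace Helper72.BA.P
open Helper72.BA

theorem nice_mul {a b : ℂ → ℂ} (ha : Nice a) (hb : Nice b) : Nice (fun z => a z * b z) := by
  obtain ⟨A, hA⟩ := ha.bdd
  obtain ⟨B, hB⟩ := hb.bdd
  refine ⟨ha.meas.mul hb.meas, ?_, A * B, fun z => ?_⟩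
  · exact hb.int.bdd_mul ha.meas.aestronglyMeasurable (ae_of_all _ hA)
  · rw [norm_mul]
    exact mul_le_mul (hA z) (hB z) (norm_nonneg _) ((norm_nonneg _).trans (hA z))

theorem nice_pow {u : ℂ → ℂ} (hu : Nice u) (j : ℕ) : Nice (fun z => u z ^ (j + 1)) := by
  induction j with
  | zero => simpa using hu
  | succ j ih =>
    have := nice_mul ih hu
    simpa [pow_succ] using this

/-- the Fourier transform of `u^(j+1)` is bounded by the convolution power of `|𝓕 u|` -/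
theorem fourier_pow_le {u : ℂ → ℂ} (hu : Nice u) (huc : Continuous u)
    (hui : Integrable (𝓕 u)) (j : ℕ) (ξ : ℂ) :
    ‖𝓕 (fun z => u z ^ (j + 1)) ξ‖ₑ ≤ lcp (fun ξ => ‖𝓕 u ξ‖ₑ) j ξ := by
  induction j generalizing ξ with
  | zero => simp [lcp]
  | succ j ih =>
    have h1 : (fun z => u z ^ (j + 1 + 1)) = fun z => u z ^ (j + 1) * u z := by
      funext z; rw [pow_succ]
    rw [h1, fourier_mul (nice_pow hu j) hu huc hui ξ]
    calc ‖∫ η, 𝓕 u η * 𝓕 (fun z => u z ^ (j + 1)) (ξ - η)‖ₑ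
        ≤ ∫⁻ η, ‖𝓕 u η * 𝓕 (fun z => u z ^ (j + 1)) (ξ - η)‖ₑ := enorm_integral_le_lintegral_enorm _
      _ ≤ ∫⁻ η, lcp (fun ξ => ‖𝓕 u ξ‖ₑ) j (ξ - η) * ‖𝓕 u (ξ - (ξ - η))‖ₑ := by
          apply lintegral_mono
          intro η
          simp only [enorm_mul, sub_sub_cancel]
          rw [mul_comm]
          exact mul_le_mul_left (ih _) _
      _ = ∫⁻ t, lcp (fun ξ => ‖𝓕 u ξ‖ₑ) j t * ‖𝓕 u (ξ - t)‖ₑ :=
          lintegral_sub_left_eq_self (fun t => lcp (fun ξ => ‖𝓕 u ξ‖ₑ) j t * ‖𝓕 u (ξ - t)‖ₑ) ξ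
      _ = lcp (fun ξ => ‖𝓕 u ξ‖ₑ) (j + 1) ξ := rfl

theorem nrm_le_lcp (k : ℕ) (hk : 1 ≤ k) (u : ℂ → ℂ) (hu : Nice u) (huc : Continuous u)
    (hui : Integrable (𝓕 u)) :
    nrm (2 * k) u ≤ ∫⁻ s, lcp (fun ξ => ‖𝓕 u ξ‖ₑ) (k - 1) s ^ 2 := by
  obtain ⟨j, rfl⟩ : ∃ j, k = j + 1 := ⟨k - 1, by omega⟩
  have h1 : nrm (2 * (j + 1)) u = ∫⁻ z, ‖(fun z => u z ^ (j + 1)) z‖ₑ ^ 2 := by
    unfold nrm
    apply lintegral_congr
    intro z
    rw [enorm_pow, ← pow_mul, mul_comm]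
  rw [h1, ← plancherel (nice_pow hu j), Nat.add_sub_cancel]
  apply lintegral_mono
  intro ξ
  exact pow_le_pow_left₀ (by positivity) (fourier_pow_le hu huc hui j ξ) 2

end Helper72.BA.P
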