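import Pool.Agent.Helper85.BP.Defs
import Pool.Agent.Helper72.BAM.FB2

/-! MP_3dd6d4_an, all-p extension, module I2a: Plancherel for `uW` (helper84). -/

set_option autoImplicit false

open MeasureTheory Complex FourierTransform Filter Topology
open scoped ENNReal NNReal ComplexConjugate

noncomputable section

namespace Helper85.BP.P

open Helper72.BA Helper85.BP

theorem measurable_phase {Ψ : ℂ → ℝ} (hΨ : Measurable Ψ) (w : ℂ) :
    Measurable (fun ξ : ℂ => Complex.exp (w * (Real.log (Ψ ξ) : ℂ))) :=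
  Complex.measurable_exp.comp (measurable_const.mul
    (Complex.measurable_ofReal.comp (Real.measurable_log.comp hΨ)))

theorem norm_phase {Ψ : ℂ → ℝ} {ξ : ℂ} (h : 0 < Ψ ξ) (w : ℂ) :
    ‖Complex.exp (w * (Real.log (Ψ ξ) : ℂ))‖ = Ψ ξ ^ w.re := by
  rw [Complex.norm_exp, Complex.re_mul_ofReal, Real.rpow_def_of_pos h, mul_comm]

theorem nice_slice {Y : Type*} [MeasurableSpace Y] {ν : Measure Y} {c1 c2 : ℝ} {U : ℂ → Y → ℂ}
    {Ψ : ℂ → ℝ} (hU : UD ν c1 c2 U Ψ) (w : ℂ) (y : Y) :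
    Nice (fun ξ => U ξ y * Complex.exp (w * (Real.log (Ψ ξ) : ℂ))) := by
  obtain ⟨C, hC⟩ := hU.bdd
  obtain ⟨a, ha, hal⟩ := hU.Ψlow
  obtain ⟨b, hb⟩ := hU.Ψup
  have hC0 : 0 ≤ C := le_trans (norm_nonneg _) (hC 0 y)
  have hm : Measurable (fun ξ => U ξ y * Complex.exp (w * (Real.log (Ψ ξ) : ℂ))) :=
    (hU.meas.comp (measurable_id.prodMk measurable_const)).mul (measurable_phase hU.Ψmeas w)
  have hbd : ∀ ξ, ‖U ξ y * Complex.exp (w * (Real.log (Ψ ξ) : ℂ))‖
      ≤ C * Real.exp (|w.re| * (|Real.log a| + |Real.log b|)) := by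
    intro ξ
    have hp : 0 < Ψ ξ := lt_of_lt_of_le ha (hal ξ)
    rw [norm_mul]
    have h1 : |Real.log (Ψ ξ)| ≤ |Real.log a| + |Real.log b| := by
      have l1 : Real.log a ≤ Real.log (Ψ ξ) := Real.log_le_log ha (hal ξ)
      have l2 : Real.log (Ψ ξ) ≤ Real.log b := Real.log_le_log hp (hb ξ)
      rw [abs_le]
      constructor
      · have := neg_abs_le (Real.log a)
        have := abs_nonneg (Real.log b)
        linarith
      · have := le_abs_self (Real.log b)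
        have := abs_nonneg (Real.log a)
        linarith
    have h2 : ‖Complex.exp (w * (Real.log (Ψ ξ) : ℂ))‖
        ≤ Real.exp (|w.re| * (|Real.log a| + |Real.log b|)) := by
      rw [Complex.norm_exp, Complex.re_mul_ofReal]
      apply Real.exp_le_exp.2
      calc w.re * Real.log (Ψ ξ) ≤ |w.re * Real.log (Ψ ξ)| := le_abs_self _
        _ = |w.re| * |Real.log (Ψ ξ)| := abs_mul _ _
        _ ≤ _ := by gcongr
    exact mul_le_mul (hC ξ y) h2 (norm_nonneg _) hC0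
  refine ⟨hm, ?_, _, hbd⟩
  have hsupp : ∀ ξ, ξ ∉ Metric.closedBall (0 : ℂ) c2 →
      U ξ y * Complex.exp (w * (Real.log (Ψ ξ) : ℂ)) = 0 := by
    intro ξ hξ
    rw [mem_closedBall_zero_iff, not_le] at hξ
    rw [hU.supp ξ y (Or.inr hξ), zero_mul]
  have h3 : IntegrableOn (fun ξ => U ξ y * Complex.exp (w * (Real.log (Ψ ξ) : ℂ)))
      (Metric.closedBall (0 : ℂ) c2) := by
    apply Measure.integrableOn_of_bounded (M := C * Real.exp (|w.re| * (|Real.log a| + |Real.log b|)))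
    · exact (isCompact_closedBall (0 : ℂ) c2).measure_lt_top.ne
    · exact hm.aestronglyMeasurable
    · exact ae_of_all _ fun ξ => hbd ξ
  exact (integrableOn_iff_integrable_of_support_subset (by
    intro ξ hξ
    by_contra hcon
    exact hξ (hsupp ξ hcon))).1 h3

theorem ch_eq_char (x ξ : ℂ) : ch x ξ = (𝐞 (inner ℝ ξ x) : ℂ) := by
  rw [ch, Real.fourierChar_apply]
  congr 1
  have : inner ℝ ξ x = x.re * ξ.re + x.im * ξ.im := by
    rw [Complex.inner]
    simp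
  rw [this]
  push_cast
  ring

theorem uW_eq_fourier {Y : Type*} (U : ℂ → Y → ℂ) (Ψ : ℂ → ℝ) (w : ℂ) (x : ℂ) (y : Y) :
    uW U Ψ w x y = 𝓕 (fun ξ => U ξ y * Complex.exp (w * (Real.log (Ψ ξ) : ℂ))) (-x) := by
  rw [← Real.fourierInv_eq_fourier_neg, Real.fourierInv_eq]
  unfold uW
  refine integral_congr_ae (ae_of_all _ fun ξ => ?_)
  show ch x ξ * _ = _
  rw [ch_eq_char]
  rfl

/-- Plancherel for `uW` -/
theorem uW_plancherel {Y : Type*} [MeasurableSpace Y] (ν : Measure Y) [IsFiniteMeasure ν]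
    (c1 c2 : ℝ) (U : ℂ → Y → ℂ) (Ψ : ℂ → ℝ) (hU : UD ν c1 c2 U Ψ) (w : ℂ) :
    ∫⁻ x : ℂ, ∫⁻ y, ‖uW U Ψ w x y‖ₑ ^ 2 ∂ν =
      ∫⁻ ξ, ENNReal.ofReal (Ψ ξ ^ (2 * w.re)) * ∫⁻ y, ‖U ξ y‖ₑ ^ 2 ∂ν := by
  obtain ⟨a, ha, hal⟩ := hU.Ψlow
  -- joint measurability
  have hch : Measurable (fun p : (ℂ × Y) × ℂ => ch p.1.1 p.2) := by
    unfold ch
    fun_prop
  have hg : Measurable (fun p : ℂ × Y => U p.1 p.2 * Complex.exp (w * (Real.log (Ψ p.1) : ℂ))) :=
    hU.meas.mul ((measurable_phase hU.Ψmeas w).comp measurable_fst)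
  have hint : Measurable (fun p : (ℂ × Y) × ℂ =>
      ch p.1.1 p.2 * (U p.2 p.1.2 * Complex.exp (w * (Real.log (Ψ p.2) : ℂ)))) :=
    hch.mul (hg.comp (measurable_snd.prodMk (measurable_snd.comp measurable_fst)))
  have hmeas : Measurable (fun p : ℂ × Y => uW U Ψ w p.1 p.2) := by
    have := (hint.stronglyMeasurable.integral_prod_right' (ν := (volume : Measure ℂ))).measurable
    exact this
  calc ∫⁻ x : ℂ, ∫⁻ y, ‖uW U Ψ w x y‖ₑ ^ 2 ∂ν
      = ∫⁻ y, (∫⁻ x : ℂ, ‖uW U Ψ w x y‖ₑ ^ 2) ∂ν :=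
        lintegral_lintegral_swap (hmeas.enorm.pow_const 2).aemeasurable
    _ = ∫⁻ y, (∫⁻ ξ : ℂ, ‖U ξ y * Complex.exp (w * (Real.log (Ψ ξ) : ℂ))‖ₑ ^ 2) ∂ν := by
        refine lintegral_congr fun y => ?_
        rw [← Helper72.BA.P.plancherel (nice_slice hU w y)]
        rw [← lintegral_neg_eq_self (μ := (volume : Measure ℂ))
          (fun x => ‖𝓕 (fun ξ => U ξ y * Complex.exp (w * (Real.log (Ψ ξ) : ℂ))) x‖ₑ ^ 2)]
        refine lintegral_congr fun x => ?_
        rw [uW_eq_fourier]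
    _ = ∫⁻ ξ : ℂ, ∫⁻ y, ‖U ξ y * Complex.exp (w * (Real.log (Ψ ξ) : ℂ))‖ₑ ^ 2 ∂ν := by
        refine lintegral_lintegral_swap ?_
        exact ((hg.comp measurable_swap).enorm.pow_const 2).aemeasurable
    _ = _ := by
        refine lintegral_congr fun ξ => ?_
        have hp : 0 < Ψ ξ := lt_of_lt_of_le ha (hal ξ)
        rw [← lintegral_const_mul]
        · refine lintegral_congr fun y => ?_
          rw [enorm_mul, mul_pow, mul_comm]
          congr 1
          rw [← ofReal_norm, norm_phase hp, ← ENNReal.ofReal_pow (by positivity),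
            ← Real.rpow_natCast, ← Real.rpow_mul hp.le]
          congr 2
          push_cast
          ring
        · exact (hU.meas.comp (measurable_const.prodMk measurable_id)).enorm.pow_const 2

end Helper85.BP.P
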