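import Pool.Agent.Helper55.TM.Basic

/-! Module FB of MP_fc8395_an: `C¹` flow box for a scalar ODE. -/

set_option autoImplicit false

open scoped ContDiff Topology NNReal
open Filter Set MeasureTheory

namespace TM

namespace FB

/-- A globally defined `C¹` function with compact support which agrees with `μ` near `q0`. -/
lemma exists_cutoff {O : Set (ℝ × ℝ)} (hO : IsOpen O) {μ : ℝ × ℝ → ℝ} (hμ : ContDiffOn ℝ 1 μ O)
    {q0 : ℝ × ℝ} (hq0 : q0 ∈ O) : ∃ r > 0, ∃ ν : ℝ × ℝ → ℝ, ContDiff ℝ 1 ν ∧ HasCompactSupport ν ∧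
      ∀ q ∈ Metric.ball q0 r, q ∈ O ∧ ν q = μ q := by
  obtain ⟨R, hR, hRO⟩ := Metric.isOpen_iff.1 hO q0 hq0
  let f : ContDiffBump q0 := ⟨R / 4, R / 2, by positivity, by linarith⟩
  refine ⟨R / 4, by positivity, fun q => f q * μ q, ?_, ?_, ?_⟩
  · rw [contDiff_iff_contDiffAt]
    intro q
    by_cases hq : q ∈ O
    · exact f.contDiffAt.mul (hμ.contDiffAt (hO.mem_nhds hq))
    · have h1 : q ∉ Metric.closedBall q0 (R / 2) := by
        intro h
        apply hq
        apply hRO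
        exact Metric.closedBall_subset_ball (by linarith) h
      have h2 : ∀ᶠ q' in 𝓝 q, f q' * μ q' = 0 := by
        filter_upwards [Metric.isClosed_closedBall.isOpen_compl.mem_nhds h1] with q' hq'
        have : f q' = 0 := by
          apply f.zero_of_le_dist
          have : ¬ (dist q' q0 ≤ R / 2) := hq'
          exact le_of_lt (not_le.1 this)
        rw [this, zero_mul]
      exact (contDiffAt_const (c := (0 : ℝ))).congr_of_eventuallyEq h2
  · exact f.hasCompactSupport.mul_right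
  · intro q hq
    refine ⟨hRO (Metric.ball_subset_ball (by linarith) hq), ?_⟩
    show f q * μ q = μ q
    rw [f.one_of_mem_closedBall (Metric.ball_subset_closedBall hq), one_mul]

/-- The divided difference. -/
noncomputable def G (ν : ℝ × ℝ → ℝ) (s u v : ℝ) : ℝ :=
  ∫ θ in (0 : ℝ)..1, fderiv ℝ ν (s, v + θ * (u - v)) (0, 1)

lemma continuous_dν {ν : ℝ × ℝ → ℝ} (hν : ContDiff ℝ 1 ν) :
    Continuous (fun q => fderiv ℝ ν q (0, 1)) :=
  (hν.continuous_fderiv (by norm_num)).clm_apply continuous_const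

lemma continuous_G {ν : ℝ × ℝ → ℝ} (hν : ContDiff ℝ 1 ν) :
    Continuous (fun p : ℝ × ℝ × ℝ => G ν p.1 p.2.1 p.2.2) := by
  unfold G
  apply intervalIntegral.continuous_parametric_intervalIntegral_of_continuous'
  have := continuous_dν hν
  show Continuous (fun p : (ℝ × ℝ × ℝ) × ℝ =>
    fderiv ℝ ν (p.1.1, p.1.2.2 + p.2 * (p.1.2.1 - p.1.2.2)) (0, 1))
  exact this.comp (by fun_prop : Continuous (fun p : (ℝ × ℝ × ℝ) × ℝ =>
    (p.1.1, p.1.2.2 + p.2 * (p.1.2.1 - p.1.2.2))))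

lemma G_mul {ν : ℝ × ℝ → ℝ} (hν : ContDiff ℝ 1 ν) (s u v : ℝ) :
    G ν s u v * (u - v) = ν (s, u) - ν (s, v) := by
  have h1 : ∀ θ : ℝ, HasDerivAt (fun θ : ℝ => ν (s, v + θ * (u - v)))
      (fderiv ℝ ν (s, v + θ * (u - v)) (0, 1) * (u - v)) θ := by
    intro θ
    have h2 : HasDerivAt (fun θ : ℝ => (s, v + θ * (u - v))) ((0 : ℝ), (u - v)) θ := by
      apply (hasDerivAt_const θ s).prodMk
      simpa using ((hasDerivAt_id θ).mul_const (u - v)).const_add v
    have h3 := ((hν.differentiable (by norm_num)).differentiableAt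
      (x := (s, v + θ * (u - v)))).hasFDerivAt.comp_hasDerivAt θ h2
    have h4 : fderiv ℝ ν (s, v + θ * (u - v)) ((0 : ℝ), (u - v))
        = fderiv ℝ ν (s, v + θ * (u - v)) (0, 1) * (u - v) := by
      have : ((0 : ℝ), (u - v)) = (u - v) • ((0 : ℝ), (1 : ℝ)) := by simp
      rw [this, map_smul, smul_eq_mul, mul_comm]
    rw [← h4]
    exact h3
  have h5 := intervalIntegral.integral_eq_sub_of_hasDerivAt (a := (0 : ℝ)) (b := 1)
    (fun θ _ => h1 θ) (by
      apply Continuous.intervalIntegrable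
      apply Continuous.mul _ continuous_const
      exact (continuous_dν hν).comp (by fun_prop : Continuous (fun θ : ℝ => (s, v + θ * (u - v)))))
  rw [intervalIntegral.integral_mul_const] at h5
  unfold G
  rw [h5]
  congr 2
  · ring_nf
  · ring_nf

/-- Clamping to `[-1, 1]`. -/
noncomputable def cl (x : ℝ) : ℝ := max (-1) (min 1 x)

lemma continuous_cl : Continuous cl := by unfold cl; fun_prop

lemma cl_eq {x : ℝ} (h : |x| ≤ 1) : cl x = x := by
  unfold cl
  rw [abs_le] at h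
  rw [min_eq_right h.2, max_eq_right h.1]

lemma cl_mem (x : ℝ) : |cl x| ≤ 1 := by
  unfold cl
  rw [abs_le]
  exact ⟨le_max_left _ _, max_le (by norm_num) (min_le_left _ _)⟩

/-- Existence of the continuous flow. -/
lemma exists_flow {ν : ℝ × ℝ → ℝ} (hν : ContDiff ℝ 1 ν) (hc : HasCompactSupport ν) (q0 : ℝ × ℝ) :
    ∃ H : ℝ × ℝ → ℝ, Continuous H ∧ (∀ c, |c| ≤ 1 → H (0, c) = q0.2 + c) ∧
      ∀ s c : ℝ, |s| < 1 → |c| ≤ 1 →
        HasDerivAt (fun s' => H (s', c)) (ν (q0.1 + s, H (s, c))) s := by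
  obtain ⟨L, hL⟩ := hc.exists_bound_of_continuous hν.continuous
  have hLip : ∃ K : ℝ≥0, LipschitzWith K ν := hν.lipschitzWith_of_hasCompactSupport hc (by norm_num)
  obtain ⟨K, hK⟩ := hLip
  have hL0 : 0 ≤ L := le_trans (norm_nonneg _) (hL q0)
  have hpl : IsPicardLindelof (fun t x => ν (t, x)) (tmin := q0.1 - 1) (tmax := q0.1 + 1)
      ⟨q0.1, by constructor <;> linarith⟩ q0.2 ⟨L + 1, by positivity⟩ 1 ⟨L, hL0⟩ K := by
    refine ⟨?_, ?_, ?_, ?_⟩
    · intro t _
      have h1 : LipschitzWith 1 (fun x : ℝ => (t, x)) := LipschitzWith.prodMk_left t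
      have := hK.comp h1
      rw [mul_one] at this
      exact this.lipschitzOnWith
    · intro x _
      exact (hν.continuous.comp (by fun_prop)).continuousOn
    · intro t _ x _
      exact hL _
    · show L * max (q0.1 + 1 - q0.1) (q0.1 - (q0.1 - 1)) ≤ (L + 1) - 1
      rw [show q0.1 + 1 - q0.1 = 1 by ring, show q0.1 - (q0.1 - 1) = 1 by ring, max_self]
      linarith
  obtain ⟨α, h1, h2⟩ := hpl.exists_forall_mem_closedBall_eq_hasDerivWithinAt_continuousOn
  refine ⟨fun p => α (q0.2 + cl p.2, q0.1 + cl p.1), ?_, ?_, ?_⟩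
  · have h3 : Continuous (fun p : ℝ × ℝ => (q0.2 + cl p.2, q0.1 + cl p.1)) :=
      (continuous_const.add (continuous_cl.comp continuous_snd)).prodMk
        (continuous_const.add (continuous_cl.comp continuous_fst))
    rw [← continuousOn_univ]
    refine h2.comp h3.continuousOn ?_
    intro p _
    have h4 := cl_mem p.2
    have h5 := cl_mem p.1
    refine ⟨?_, ?_⟩
    · rw [Metric.mem_closedBall, dist_eq_norm, Real.norm_eq_abs]
      simpa using h4
    · rw [abs_le] at h5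
      constructor
      · show q0.1 - 1 ≤ q0.1 + cl p.1
        linarith
      · show q0.1 + cl p.1 ≤ q0.1 + 1
        linarith
  · intro c hcc
    show α (q0.2 + cl c, q0.1 + cl 0) = q0.2 + c
    rw [cl_eq hcc, cl_eq (by simp), add_zero]
    refine (h1 (q0.2 + c) ?_).1
    rw [Metric.mem_closedBall, dist_eq_norm, Real.norm_eq_abs]
    simpa using hcc
  · intro s c hs hcc
    have h3 := (h1 (q0.2 + c) (by
      rw [Metric.mem_closedBall, dist_eq_norm, Real.norm_eq_abs]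
      simpa using hcc)).2 (q0.1 + s) (by
        rw [abs_lt] at hs
        constructor <;> linarith)
    have h4 : HasDerivAt (fun t => α (q0.2 + c, t)) (ν (q0.1 + s, α (q0.2 + c, q0.1 + s)))
        (q0.1 + s) := by
      apply h3.hasDerivAt
      rw [abs_lt] at hs
      apply Icc_mem_nhds <;> linarith
    have h5 := HasDerivAt.comp_const_add q0.1 s h4
    have h6 : (fun s' => α (q0.2 + c, q0.1 + cl s')) =ᶠ[𝓝 s] fun s' => α (q0.2 + c, q0.1 + s') := by
      have : ∀ᶠ s' in 𝓝 s, |s'| < 1 :=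
        (continuous_abs.continuousAt (x := s)).eventually (gt_mem_nhds hs)
      filter_upwards [this] with s' hs'
      rw [cl_eq hs'.le]
    show HasDerivAt (fun s' => α (q0.2 + cl c, q0.1 + cl s'))
      (ν (q0.1 + s, α (q0.2 + cl c, q0.1 + cl s))) s
    rw [cl_eq hcc, cl_eq hs.le]
    exact h5.congr_of_eventuallyEq h6

/-- The transition factor. -/
noncomputable def Ef (q0 : ℝ × ℝ) (ν H : ℝ × ℝ → ℝ) (s c c' : ℝ) : ℝ :=
  Real.exp (∫ σ in (0 : ℝ)..s, G ν (q0.1 + σ) (H (σ, c)) (H (σ, c')))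

lemma continuous_Ef {q0 : ℝ × ℝ} {ν H : ℝ × ℝ → ℝ} (hν : ContDiff ℝ 1 ν) (hH : Continuous H) :
    Continuous (fun p : ℝ × ℝ × ℝ => Ef q0 ν H p.1 p.2.1 p.2.2) := by
  unfold Ef
  apply Real.continuous_exp.comp
  have h := continuous_G hν
  refine intervalIntegral.continuous_parametric_intervalIntegral_of_continuous
    (f := fun (p : ℝ × ℝ × ℝ) (σ : ℝ) => G ν (q0.1 + σ) (H (σ, p.2.1)) (H (σ, p.2.2)))
    ?_ continuous_fst
  show Continuous (fun p : (ℝ × ℝ × ℝ) × ℝ => G ν (q0.1 + p.2) (H (p.2, p.1.2.1)) (H (p.2, p.1.2.2)))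
  exact h.comp (by fun_prop : Continuous (fun p : (ℝ × ℝ × ℝ) × ℝ =>
    (q0.1 + p.2, H (p.2, p.1.2.1), H (p.2, p.1.2.2))))

lemma diff_eq {q0 : ℝ × ℝ} {ν H : ℝ × ℝ → ℝ} (hν : ContDiff ℝ 1 ν) (hH : Continuous H)
    (h0 : ∀ c, |c| ≤ 1 → H (0, c) = q0.2 + c)
    (h1 : ∀ s c : ℝ, |s| < 1 → |c| ≤ 1 →
        HasDerivAt (fun s' => H (s', c)) (ν (q0.1 + s, H (s, c))) s)
    {s c c' : ℝ} (hs : |s| < 1) (hc : |c| ≤ 1) (hc' : |c'| ≤ 1) :
    H (s, c) - H (s, c') = (c - c') * Ef q0 ν H s c c' := by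
  set g : ℝ → ℝ := fun σ => G ν (q0.1 + σ) (H (σ, c)) (H (σ, c')) with hg
  have hgc : Continuous g := by
    have h := continuous_G hν
    exact h.comp (by fun_prop : Continuous (fun σ : ℝ => (q0.1 + σ, H (σ, c), H (σ, c'))))
  set I : ℝ → ℝ := fun s => ∫ σ in (0 : ℝ)..s, g σ with hI
  have hI' : ∀ s, HasDerivAt I (g s) s := fun s =>
    intervalIntegral.integral_hasDerivAt_right (hgc.intervalIntegrable _ _)
      hgc.stronglyMeasurable.stronglyMeasurableAtFilter hgc.continuousAt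
  set F : ℝ → ℝ := fun s => (H (s, c) - H (s, c')) * Real.exp (- I s) with hF
  have hF' : ∀ s, |s| < 1 → HasDerivAt F 0 s := by
    intro s hs
    have h2 := (h1 s c hs hc).sub (h1 s c' hs hc')
    have h3 := (hI' s).neg.exp
    have h4 := h2.mul h3
    refine h4.congr_deriv ?_
    rw [← G_mul hν (q0.1 + s) (H (s, c)) (H (s, c'))]
    show G ν (q0.1 + s) (H (s, c)) (H (s, c')) * (H (s, c) - H (s, c')) * Real.exp (- I s)
      + (H (s, c) - H (s, c')) * (Real.exp (- I s) *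
        (- G ν (q0.1 + s) (H (s, c)) (H (s, c')))) = 0
    ring
  have hconst : F s = F 0 := by
    have hconv : Convex ℝ (Metric.ball (0 : ℝ) 1) := convex_ball _ _
    have hd : ∀ x ∈ Metric.ball (0 : ℝ) 1, HasDerivWithinAt F 0 (Metric.ball (0 : ℝ) 1) x := by
      intro x hx
      apply (hF' x _).hasDerivWithinAt
      simpa using hx
    have := hconv.norm_image_sub_le_of_norm_hasDerivWithin_le (C := 0) hd (by simp)
      (show (0 : ℝ) ∈ Metric.ball (0 : ℝ) 1 by simp) (show s ∈ Metric.ball (0 : ℝ) 1 by simpa using hs)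
    rw [zero_mul] at this
    exact sub_eq_zero.1 (norm_le_zero_iff.1 this)
  have hF0 : F 0 = c - c' := by
    show (H (0, c) - H (0, c')) * Real.exp (- I 0) = c - c'
    have : I 0 = 0 := by simp [hI]
    rw [h0 c hc, h0 c' hc', this]
    simp
  have hE : Ef q0 ν H s c c' = Real.exp (I s) := rfl
  rw [hF0] at hconst
  rw [hE, ← hconst]
  show _ = (H (s, c) - H (s, c')) * Real.exp (- I s) * Real.exp (I s)
  rw [mul_assoc, ← Real.exp_add]
  simp

end FB

open FB in
theorem flow_box {O : Set (ℝ × ℝ)} (hO : IsOpen O) {μ : ℝ × ℝ → ℝ} (hμ : ContDiffOn ℝ 1 μ O)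
    {q0 : ℝ × ℝ} (hq0 : q0 ∈ O) : ∃ δ > 0, ∃ H : ℝ × ℝ → ℝ,
      ContDiffOn ℝ 1 H (Metric.ball 0 δ) ∧
      (∀ c : ℝ, |c| < δ → H (0, c) = q0.2 + c) ∧
      (∀ s c : ℝ, |s| < δ → |c| < δ → (q0.1 + s, H (s, c)) ∈ O ∧
        HasDerivAt (fun s' => H (s', c)) (μ (q0.1 + s, H (s, c))) s) ∧
      (∀ s c : ℝ, |s| < δ → |c| < δ → 0 < fderiv ℝ H (s, c) (0, 1)) ∧
      (∀ s c c' : ℝ, |s| < δ → |c| < δ → |c'| < δ → H (s, c) = H (s, c') → c = c') := by
  obtain ⟨r, hr, ν, hν, hνc, hνμ⟩ := exists_cutoff hO hμ hq0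
  obtain ⟨H, hH, h0, h1⟩ := exists_flow hν hνc q0
  have hE := continuous_Ef (q0 := q0) hν hH
  -- the set where the flow stays in the good ball
  have hgood : ∀ᶠ p : ℝ × ℝ in 𝓝 0, (q0.1 + p.1, H p) ∈ Metric.ball q0 r := by
    have hcont : Continuous (fun p : ℝ × ℝ => (q0.1 + p.1, H p)) := by fun_prop
    have h2 := hcont.continuousAt (x := (0 : ℝ × ℝ))
    apply h2.eventually
    apply Metric.isOpen_ball.mem_nhds
    have h3 : H (0 : ℝ × ℝ) = q0.2 := by
      have := h0 0 (by simp)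
      rw [add_zero] at this
      exact this
    show (q0.1 + (0 : ℝ × ℝ).1, H (0 : ℝ × ℝ)) ∈ Metric.ball q0 r
    rw [h3, Prod.fst_zero, add_zero]
    exact Metric.mem_ball_self hr
  obtain ⟨δ0, hδ0, hball⟩ := Metric.eventually_nhds_iff_ball.1 hgood
  have hδ : 0 < min δ0 1 := lt_min hδ0 one_pos
  have hmem : ∀ s c : ℝ, |s| < min δ0 1 → |c| < min δ0 1 →
      (q0.1 + s, H (s, c)) ∈ Metric.ball q0 r := by
    intro s c hs hc
    apply hball (s, c)
    rw [mem_ball_zero_iff, Prod.norm_def, max_lt_iff]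
    exact ⟨lt_of_lt_of_le hs (min_le_left _ _), lt_of_lt_of_le hc (min_le_left _ _)⟩
  have hlt1 : ∀ s : ℝ, |s| < min δ0 1 → |s| < 1 := fun s hs => lt_of_lt_of_le hs (min_le_right _ _)
  -- the derivative
  have hder : ∀ s c : ℝ, |s| < min δ0 1 → |c| < min δ0 1 →
      HasFDerivAt H ((ν (q0.1 + s, H (s, c))) • ContinuousLinearMap.fst ℝ ℝ ℝ
        + (Ef q0 ν H s c c) • ContinuousLinearMap.snd ℝ ℝ ℝ) (s, c) := by
    intro s c hs hc
    rw [hasFDerivAt_iff_isLittleO_nhds_zero, Asymptotics.isLittleO_iff]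
    intro ε hε
    have e1 : ∀ᶠ h : ℝ × ℝ in 𝓝 0, |Ef q0 ν H (s + h.1) (c + h.2) c - Ef q0 ν H s c c| ≤ ε / 2 := by
      have hcont : Continuous (fun h : ℝ × ℝ => Ef q0 ν H (s + h.1) (c + h.2) c) :=
        hE.comp (by fun_prop : Continuous (fun h : ℝ × ℝ => (s + h.1, c + h.2, c)))
      have h2 := hcont.continuousAt (x := (0 : ℝ × ℝ))
      have h3 := Metric.continuousAt_iff'.1 h2 (ε / 2) (by positivity)
      filter_upwards [h3] with h hh
      simp only [Prod.fst_zero, Prod.snd_zero, add_zero] at hh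
      exact hh.le
    have e2 : ∀ᶠ h : ℝ × ℝ in 𝓝 0, |H (s + h.1, c) - H (s, c) - h.1 * ν (q0.1 + s, H (s, c))|
        ≤ ε / 2 * |h.1| := by
      have h2 := (hasDerivAt_iff_isLittleO_nhds_zero.1 (h1 s c (hlt1 s hs) (hlt1 c hc).le))
      have h3 := (Asymptotics.isLittleO_iff.1 h2) (show 0 < ε / 2 by positivity)
      have h4 : Tendsto (fun h : ℝ × ℝ => h.1) (𝓝 0) (𝓝 0) := continuous_fst.tendsto 0
      have h5 := h4.eventually h3
      filter_upwards [h5] with h hh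
      exact hh
    have e3 : ∀ᶠ h : ℝ × ℝ in 𝓝 0, |s + h.1| < 1 ∧ |c + h.2| < 1 := by
      have c1 : Continuous (fun h : ℝ × ℝ => |s + h.1|) := by fun_prop
      have c2 : Continuous (fun h : ℝ × ℝ => |c + h.2|) := by fun_prop
      have a1 : ∀ᶠ h : ℝ × ℝ in 𝓝 0, |s + h.1| < 1 :=
        (c1.continuousAt (x := (0 : ℝ × ℝ))).eventually (Iio_mem_nhds (by
          simpa using hlt1 s hs))
      have a2 : ∀ᶠ h : ℝ × ℝ in 𝓝 0, |c + h.2| < 1 :=
        (c2.continuousAt (x := (0 : ℝ × ℝ))).eventually (Iio_mem_nhds (by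
          simpa using hlt1 c hc))
      exact a1.and a2
    filter_upwards [e1, e2, e3] with h k1 k2 k3
    have k4 := diff_eq hν hH h0 h1 k3.1 k3.2.le (hlt1 c hc).le
    rw [add_sub_cancel_left] at k4
    have k5 : H ((s, c) + h) - H (s, c) - ((ν (q0.1 + s, H (s, c))) • ContinuousLinearMap.fst ℝ ℝ ℝ
        + (Ef q0 ν H s c c) • ContinuousLinearMap.snd ℝ ℝ ℝ) h
        = h.2 * (Ef q0 ν H (s + h.1) (c + h.2) c - Ef q0 ν H s c c)
          + (H (s + h.1, c) - H (s, c) - h.1 * ν (q0.1 + s, H (s, c))) := by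
      have k6 : H ((s, c) + h) = H (s + h.1, c + h.2) := rfl
      rw [k6]
      simp only [_root_.add_apply, _root_.smul_apply,
        ContinuousLinearMap.coe_fst', ContinuousLinearMap.coe_snd', smul_eq_mul]
      linear_combination k4
    rw [k5]
    have n1 : |h.1| ≤ ‖h‖ := by
      have := norm_fst_le h
      rwa [Real.norm_eq_abs] at this
    have n2 : |h.2| ≤ ‖h‖ := by
      have := norm_snd_le h
      rwa [Real.norm_eq_abs] at this
    calc ‖h.2 * (Ef q0 ν H (s + h.1) (c + h.2) c - Ef q0 ν H s c c)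
          + (H (s + h.1, c) - H (s, c) - h.1 * ν (q0.1 + s, H (s, c)))‖
        ≤ ‖h.2 * (Ef q0 ν H (s + h.1) (c + h.2) c - Ef q0 ν H s c c)‖
          + ‖(H (s + h.1, c) - H (s, c) - h.1 * ν (q0.1 + s, H (s, c)))‖ := norm_add_le _ _
      _ ≤ |h.2| * (ε / 2) + ε / 2 * |h.1| := by
          rw [norm_mul, Real.norm_eq_abs, Real.norm_eq_abs, Real.norm_eq_abs]
          gcongr
      _ ≤ ‖h‖ * (ε / 2) + ε / 2 * ‖h‖ := by gcongr
      _ = ε * ‖h‖ := by ring
  refine ⟨min δ0 1, hδ, H, ?_, ?_, ?_, ?_, ?_⟩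
  · have hpt : ∀ p ∈ Metric.ball (0 : ℝ × ℝ) (min δ0 1), |p.1| < min δ0 1 ∧ |p.2| < min δ0 1 := by
      intro p hp
      rw [mem_ball_zero_iff, Prod.norm_def, max_lt_iff] at hp
      exact hp
    rw [show (1 : WithTop ℕ∞) = 0 + 1 from rfl, contDiffOn_succ_iff_hasFDerivWithinAt_of_uniqueDiffOn
      Metric.isOpen_ball.uniqueDiffOn]
    refine ⟨by simp, fun p => (ν (q0.1 + p.1, H p)) • ContinuousLinearMap.fst ℝ ℝ ℝ
        + (Ef q0 ν H p.1 p.2 p.2) • ContinuousLinearMap.snd ℝ ℝ ℝ, ?_, ?_⟩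
    · rw [contDiffOn_zero]
      apply Continuous.continuousOn
      have c1 : Continuous (fun p : ℝ × ℝ => Ef q0 ν H p.1 p.2 p.2) :=
        hE.comp (by fun_prop : Continuous (fun p : ℝ × ℝ => (p.1, p.2, p.2)))
      have c2 : Continuous (fun p : ℝ × ℝ => ν (q0.1 + p.1, H p)) :=
        hν.continuous.comp (by fun_prop)
      exact (c2.smul continuous_const).add (c1.smul continuous_const)
    · intro p hp
      exact (hder p.1 p.2 (hpt p hp).1 (hpt p hp).2).hasFDerivWithinAt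
  · intro c hc
    exact h0 c (hlt1 c hc).le
  · intro s c hs hc
    have h2 := hνμ _ (hmem s c hs hc)
    refine ⟨h2.1, ?_⟩
    rw [← h2.2]
    exact h1 s c (hlt1 s hs) (hlt1 c hc).le
  · intro s c hs hc
    rw [(hder s c hs hc).fderiv]
    simp only [_root_.add_apply, _root_.smul_apply,
        ContinuousLinearMap.coe_fst', ContinuousLinearMap.coe_snd', smul_eq_mul, mul_zero, zero_add,
        mul_one]
    exact Real.exp_pos _
  · intro s c c' hs hc hc' hcc
    have h2 := diff_eq hν hH h0 h1 (hlt1 s hs) (hlt1 c hc).le (hlt1 c' hc').le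
    rw [hcc, sub_self] at h2
    rcases mul_eq_zero.1 h2.symm with h3 | h3
    · linarith
    · exact absurd h3 (Real.exp_pos _).ne'

end TM
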