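import Pool.Agent.Helper55.TM.Basic

/-! Module FI of MP_fc8395_an: the fan identity and Chebyshev facts. -/

set_option autoImplicit false

open scoped ContDiff Topology
open Filter Set

namespace TM

namespace FI

lemma t_add_two (p : Pt) (j : ℕ) :
    (U^[j + 2] p).2.2 = 2 * p.2.1 * (U^[j + 1] p).2.2 - (U^[j] p).2.2 := by
  have h1 : (U^[j + 2] p).2.2 = (U^[j + 1] p).1 := (U_iter_x p (j + 1)).symm
  have h2 : (U^[j + 1] p).1 = 2 * (U^[j] p).1 * (U^[j] p).2.1 - (U^[j] p).2.2 := by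
    rw [Function.iterate_succ_apply']; rfl
  rw [h1, h2, U_iter_x, U_iter_y]
  ring

lemma D_eq (p : Pt) (j : ℕ) :
    D (U^[j] p) = p.2.1 * (U^[j] p).2.2 - (U^[j + 1] p).2.2 := by
  unfold D
  rw [U_iter_x, U_iter_y]

lemma D_add_two (p : Pt) (j : ℕ) :
    D (U^[j + 2] p) = 2 * p.2.1 * D (U^[j + 1] p) - D (U^[j] p) := by
  rw [D_eq, D_eq, D_eq]
  have h1 := t_add_two p j
  have h2 := t_add_two p (j + 1)
  rw [show j + 2 + 1 = j + 1 + 2 by ring, show j + 1 + 1 = j + 2 by ring] at *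
  rw [h2, h1]
  ring

lemma eta_add_two (q : Pt × Pt) (j : ℕ) :
    (TU^[j + 2] q).2.2.2 = 2 * q.1.2.1 * (TU^[j + 1] q).2.2.2 - (TU^[j] q).2.2.2
      + 2 * (U^[j + 1] q.1).2.2 * q.2.2.1 := by
  have h1 : (TU^[j + 2] q).2.2.2 = (TU^[j + 1] q).2.1 := (TU_iter_vx (j + 1) q).symm
  have h2 : (TU^[j + 1] q).2.1 = 2 * (TU^[j] q).2.1 * (TU^[j] q).1.2.1
      + 2 * (TU^[j] q).1.1 * (TU^[j] q).2.2.1 - (TU^[j] q).2.2.2 := by
    rw [Function.iterate_succ_apply']; rfl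
  rw [h1, h2, TU_iter_fst, U_iter_x, U_iter_y, TU_iter_vy, TU_iter_vx]
  ring

lemma Ch_add_two (j : ℤ) (y : ℝ) : Ch (j + 2) y = 2 * y * Ch (j + 1) y - Ch j y := by
  unfold Ch
  rw [Polynomial.Chebyshev.U_add_two]
  simp

lemma Ch_neg_one (y : ℝ) : Ch (-1) y = 0 := by
  unfold Ch
  simp

lemma Ch_zero (y : ℝ) : Ch 0 y = 1 := by
  unfold Ch
  simp

end FI

open FI in
theorem fan_identity {e : ℝ} {q : Pt × Pt} (hq : Tan e q) (j : ℕ) :
    (1 - q.1.2.1 ^ 2) * (D q.1 * (TU^[j] q).2.2.2 - D (U^[j] q.1) * q.2.2.2)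
      = q.2.2.1 * (j * (D q.1 * D (U^[j] q.1)) - e ^ 2 * q.1.2.1 * Ch (j - 1) q.1.2.1) := by
  induction j using Nat.twoStepInduction with
  | zero =>
    simp only [Function.iterate_zero, id_eq, zero_mul, CharP.cast_eq_zero, zero_sub]
    have : Ch (-1) q.1.2.1 = 0 := Ch_neg_one _
    rw [this]
    ring
  | one =>
    have h0 : Ch (((1 : ℕ) : ℤ) - 1) q.1.2.1 = 1 := by
      rw [Nat.cast_one, sub_self]; exact Ch_zero _
    rw [h0]
    obtain ⟨h1, h2⟩ := hq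
    have h3 : FV q.1 = 1 + e ^ 2 := h1
    obtain ⟨⟨x, y, z⟩, ⟨a, b, c⟩⟩ := q
    simp only [Function.iterate_one, TU, U, dU, D, dFV, FV, Nat.cast_one] at h2 h3 ⊢
    linear_combination (-(1 - y ^ 2) / 2) * h2 - b * y * h3
  | more j ih1 ih2 =>
    have h1 := eta_add_two q j
    have h2 := D_add_two q.1 j
    have h3 := Ch_add_two ((j : ℤ) - 1) q.1.2.1
    have h4 := D_eq q.1 j
    have h5 := D_eq q.1 (j + 1)
    have h6 := t_add_two q.1 j
    have e1 : (((j + 1 : ℕ) : ℤ) - 1) = (j : ℤ) - 1 + 1 := by push_cast; ring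
    have e2 : (((j + 2 : ℕ) : ℤ) - 1) = (j : ℤ) - 1 + 2 := by push_cast; ring
    rw [e2, h3, h1, h2]
    rw [e1] at ih2
    rw [show j + 1 + 1 = j + 2 by ring, h6] at h5
    push_cast at ih2 ⊢
    generalize hT0 : (U^[j] q.1).2.2 = T0 at *
    generalize hT1 : (U^[j + 1] q.1).2.2 = T1 at *
    generalize hD0 : D (U^[j] q.1) = D0 at *
    generalize hD1 : D (U^[j + 1] q.1) = D1 at *
    generalize hE0 : (TU^[j] q).2.2.2 = E0 at *
    generalize hE1 : (TU^[j + 1] q).2.2.2 = E1 at *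
    generalize hC0 : Ch ((j : ℤ) - 1) q.1.2.1 = C0 at *
    generalize hC1 : Ch ((j : ℤ) - 1 + 1) q.1.2.1 = C1 at *
    subst h4 h5
    linear_combination (2 * q.1.2.1) * ih2 - ih1

open FI in
theorem Ch_abs_le {y : ℝ} (hy : |y| ≤ 1) (j : ℕ) : |Ch (j - 1) y| ≤ j := by
  induction j with
  | zero =>
    have : Ch (((0 : ℕ) : ℤ) - 1) y = 0 := by
      rw [Nat.cast_zero, zero_sub]; exact Ch_neg_one _
    rw [this]; simp
  | succ j ih =>
    have h1 : Ch (((j + 1 : ℕ) : ℤ) - 1) y = y * Ch ((j : ℤ) - 1) y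
        + (Polynomial.Chebyshev.T ℝ j).eval y := by
      unfold Ch
      have := Polynomial.Chebyshev.U_eq_X_mul_U_add_T (R := ℝ) ((j : ℤ) - 1)
      rw [show ((j + 1 : ℕ) : ℤ) - 1 = (j : ℤ) - 1 + 1 by push_cast; ring, this]
      simp
    have h2 := Polynomial.Chebyshev.abs_eval_T_real_le_one j hy
    rw [h1]
    push_cast
    calc |y * Ch ((j : ℤ) - 1) y + (Polynomial.Chebyshev.T ℝ j).eval y|
        ≤ |y * Ch ((j : ℤ) - 1) y| + |(Polynomial.Chebyshev.T ℝ j).eval y| := abs_add_le _ _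
      _ ≤ 1 * |Ch ((j : ℤ) - 1) y| + 1 := by
          rw [abs_mul]
          gcongr
      _ ≤ j + 1 := by linarith

theorem Ch_trig (θ : ℝ) (j : ℕ) : Ch (j - 1) (Real.cos θ) * Real.sin θ = Real.sin (j * θ) := by
  unfold Ch
  rw [Polynomial.Chebyshev.U_real_cos]
  congr 1
  push_cast
  ring

open FI in
theorem fan_trig {e : ℝ} {p : Pt} (hp : p ∈ Surf e) (hy : |p.2.1| < 1) :
    ∃ θ ψ A : ℝ, 0 < θ ∧ θ < Real.pi ∧ p.2.1 = Real.cos θ ∧ 0 < A ∧
      A ^ 2 * Real.sin θ ^ 2 = e ^ 2 + Real.sin θ ^ 2 ∧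
      ∀ j : ℕ, (U^[j] p).2.2 = A * Real.cos (ψ + j * θ) ∧
        D (U^[j] p) = A * Real.sin θ * Real.sin (ψ + j * θ) := by
  have hy' := abs_lt.1 hy
  set θ := Real.arccos p.2.1 with hθ
  have hcos : Real.cos θ = p.2.1 := Real.cos_arccos hy'.1.le hy'.2.le
  have hθ0 : 0 < θ := Real.arccos_pos.2 hy'.2
  have hθ1 : θ < Real.pi := by
    rcases (Real.arccos_le_pi p.2.1).lt_or_eq with h | h
    · exact h
    · rw [← hθ] at h
      rw [h, Real.cos_pi] at hcos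
      linarith
  have hs : 0 < Real.sin θ := Real.sin_pos_of_pos_of_lt_pi hθ0 hθ1
  set b := Real.sin θ with hb
  have hb2 : b ^ 2 = 1 - p.2.1 ^ 2 := by
    have := Real.sin_sq_add_cos_sq θ
    rw [hcos] at this
    linarith
  set A := Real.sqrt (e ^ 2 + b ^ 2) / b with hA
  have hApos : 0 < A := by positivity
  have hA2 : A ^ 2 * b ^ 2 = e ^ 2 + b ^ 2 := by
    rw [hA, div_pow, Real.sq_sqrt (by positivity)]
    field_simp
  have hD := D_sq hp
  -- the angle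
  have hnorm : (p.2.2 / A) ^ 2 + (D p / (A * b)) ^ 2 = 1 := by
    have h1 : (p.2.2 / A) ^ 2 + (D p / (A * b)) ^ 2
        = (p.2.2 ^ 2 * b ^ 2 + D p ^ 2) / (A ^ 2 * b ^ 2) := by
      field_simp
    rw [h1, hA2, hD, ← hb2]
    rw [div_eq_one_iff_eq (by positivity)]
    ring
  obtain ⟨ψ, hψ1, hψ2⟩ : ∃ ψ : ℝ, Real.cos ψ = p.2.2 / A ∧ Real.sin ψ = D p / (A * b) := by
    set w : ℂ := ⟨p.2.2 / A, D p / (A * b)⟩ with hw
    have hw1 : ‖w‖ = 1 := by
      rw [← sq_eq_sq₀ (norm_nonneg _) (by norm_num), one_pow, ← Complex.normSq_eq_norm_sq,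
        Complex.normSq_apply, hw]
      simp only
      rw [← hnorm]
      ring
    have hw0 : w ≠ 0 := by
      intro h
      rw [h, norm_zero] at hw1
      norm_num at hw1
    refine ⟨w.arg, ?_, ?_⟩
    · rw [Complex.cos_arg hw0, hw1, div_one]
    · rw [Complex.sin_arg, hw1, div_one]
  refine ⟨θ, ψ, A, hθ0, hθ1, hcos.symm, hApos, hA2, ?_⟩
  intro j
  induction j with
  | zero =>
    simp only [Function.iterate_zero, id_eq, CharP.cast_eq_zero, zero_mul, add_zero]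
    rw [hψ1, hψ2, ← hb]
    constructor
    · field_simp
    · field_simp
  | succ j ih =>
    obtain ⟨ih1, ih2⟩ := ih
    have hang : ψ + ((j + 1 : ℕ) : ℝ) * θ = (ψ + j * θ) + θ := by push_cast; ring
    rw [hang]
    have h1 : (U^[j + 1] p).2.2 = p.2.1 * (U^[j] p).2.2 - D (U^[j] p) := by
      have := D_eq p j
      linarith
    have h2 : D (U^[j + 1] p) = p.2.1 * D (U^[j] p) + (1 - p.2.1 ^ 2) * (U^[j] p).2.2 := by
      rw [Function.iterate_succ_apply', D_U, U_iter_y]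
    rw [h1, h2, ih1, ih2, Real.cos_add (ψ + j * θ) θ, Real.sin_add (ψ + j * θ) θ, ← hb2, ← hcos,
      ← hb]
    constructor
    · ring
    · ring

end TM
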